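import Pool.Agent.MGE.Defs
import Pool.Agent.MEQ.SQE
import Pool.Agent.MGE.VV
import Pool.Agent.MGE.EDN
import Pool.Agent.MGE.JGD
import Pool.Agent.MGE.JHS
import Pool.Agent.MGE.HYP
import Pool.Agent.MGE.ARX
import Pool.Agent.MGE.ARI
import Pool.Agent.MGE.PTI
import Pool.Agent.MGE.RRS
/-!
CELE. One cell of the exact case, with margin (copy of MGE.CEL).
-/
set_option autoImplicit false

open MeasureTheory Set Metric Pool.Agent.MEIS Pool.Agent.MSQ Pool.Agent.MGE

namespace Pool.Agent.MEQ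

private theorem CELE_s2 : √2 ≤ (3 / 2 : ℝ) := by
  apply Real.sqrt_le_iff.2
  constructor
  · norm_num
  · norm_num

private theorem CELE_c1 : cc ≤ 1 := by
  have h1 := cc_sq
  have h2 := cc_pos
  nlinarith

private theorem CELE_cs : cc ≤ √2 := by
  rw [Real.le_sqrt cc_pos.le (by norm_num), cc_sq]
  norm_num

private theorem CELE_bd {ε : ℝ} : 6 * (4 * √ε) * ((√2 - cc) + (cc - (-cc))) ≤ 60 * √ε := by
  have h1 := CELE_s2
  have h2 := CELE_c1
  have h3 := Real.sqrt_nonneg ε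
  have h4 : √ε * (√2 + cc) ≤ √ε * (5 / 2) := mul_le_mul_of_nonneg_left (by linarith) h3
  have h5 : 6 * (4 * √ε) * ((√2 - cc) + (cc - (-cc))) = 24 * (√ε * (√2 + cc)) := by ring
  rw [h5]
  linarith

private theorem CELE_bd' {ε : ℝ} : 6 * (4 * √ε) * ((cc - (-cc)) + (√2 - cc)) ≤ 60 * √ε := by
  rw [add_comm (cc - (-cc))]
  exact CELE_bd

private theorem CELE_bd2 {ε : ℝ} : 6 * (4 * √ε) * ((-cc - (-√2)) + (cc - (-cc))) ≤ 60 * √ε := by
  have h : (-cc - (-√2)) = √2 - cc := by ring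
  rw [h]
  exact CELE_bd

private theorem CELE_bd2' {ε : ℝ} : 6 * (4 * √ε) * ((cc - (-cc)) + (-cc - (-√2))) ≤ 60 * √ε := by
  rw [add_comm (cc - (-cc))]
  exact CELE_bd2

theorem cellE : ∃ C c : ℝ, 0 ≤ C ∧ 0 < c ∧ ∀ (G : E → ℝ) (R τ ε : ℝ), SB G R τ → 0 ≤ τ → 0 < ε →
    8 * √ε ≤ 1 → TG G ε →
    (∫ z in RR, ed G (P z) / lf z ^ 3) + c * min (CU (jG G)) (CU (jG G).sw) ≤ Es + C * √ε := by
  obtain ⟨C, cM, hC, hcM, hSQ⟩ := SQE
  refine ⟨8 * C + 240, cM, by linarith, hcM, ?_⟩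
  intro G R τ ε h hτ hε hε1 hG
  have hs := Real.sqrt_pos.mpr hε
  have hss := Real.mul_self_sqrt hε.le
  have he : ε ≤ 1 := by nlinarith
  have c0 := cc_pos
  have c1 := CELE_c1
  have cs := CELE_cs
  have s2 := CELE_s2
  have hlf : Continuous lf := by
    have h1 : lf = fun z => ‖P z‖ := by
      funext z
      exact (norm_P z).symm
    rw [h1]
    exact continuous_P.norm
  have hed : ContinuousOn (ed G) ({0}ᶜ : Set E) := ContDiffOn.continuousOn (ed_sm h)
  have hcont : Continuous fun z : ℝ × ℝ => ed G (P z) / lf z ^ 3 := by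
    refine (hed.comp_continuous continuous_P fun z => P_ne z).div (hlf.pow 3) fun z => ?_
    exact pow_ne_zero 3 (lf_pos z).ne'
  have hnn : ∀ z : ℝ × ℝ, 0 ≤ ed G (P z) / lf z ^ 3 := fun z =>
    div_nonneg (ed_nonneg h hτ (P_ne z)) (pow_nonneg (lf_pos z).le 3)
  have hsplit := rr_split hcont hnn
  have hdn : (fun z : ℝ × ℝ => ed G (P z) / lf z ^ 3) = dn (jG G) := by
    funext z
    exact (dn_eq h z).symm
  have hdn' : ∀ X Y : ℝ, ed G (P (X, Y)) / lf (X, Y) ^ 3 = dn (jG G) (X, Y) := fun X Y =>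
    (dn_eq h (X, Y)).symm
  simp only [hdn'] at hsplit
  have hsq : (∫ X in (-cc)..cc, ∫ Y in (-cc)..cc, dn (jG G) (X, Y)) +
      cM * min (CU (jG G)) (CU (jG G).sw) ≤ Es + C * (8 * √ε) :=
    hSQ (8 * √ε) (jG G) (hyp_jG h hτ hG hε hε1)
  have hgood := jG_good h.sm
  have hp := fun z => hess_pos h hτ z
  have hn := fun z => hess_neg h hτ z
  have a1 : ∫ X in cc..√2, ∫ Y in (-cc)..cc, dn (jG G) (X, Y) ≤ 60 * √ε := by
    refine (arm_int hgood (η := 4 * √ε) (gX := 1 / 2) (gY := 0) cs (by linarith) (by linarith) (by linarith)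
      (by linarith) (by linarith) (fun z => (hp z).1) (fun z => (hp z).2.1) (fun z => (hp z).2.2) ?_ ?_).trans
      CELE_bd
    · intro X Y hX hX2 hY hY2
      have hX0 : 0 < X := lt_of_lt_of_le c0 hX
      have h3 := (arm_X h hτ hG hε he (X := X) (Y := Y) (by rw [abs_of_pos hX0]; exact hX)
        (by rw [abs_of_pos hX0]; exact hX2) (abs_le.2 ⟨hY, hY2⟩)).2.1
      rw [sign_pos hX0] at h3
      simpa using h3
    · intro X Y hX hX2 hY hY2
      have hX0 : 0 < X := lt_of_lt_of_le c0 hX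
      have h3 := (arm_X h hτ hG hε he (X := X) (Y := Y) (by rw [abs_of_pos hX0]; exact hX)
        (by rw [abs_of_pos hX0]; exact hX2) (abs_le.2 ⟨hY, hY2⟩)).2.2
      rw [sub_zero]
      exact h3
  have a2 : ∫ X in (-√2)..(-cc), ∫ Y in (-cc)..cc, dn (jG G) (X, Y) ≤ 60 * √ε := by
    refine (arm_int hgood (η := 4 * √ε) (gX := -1 / 2) (gY := 0) (by linarith) (by linarith) (by linarith)
      (by linarith)
      (by linarith) (by linarith) (fun z => (hp z).1) (fun z => (hp z).2.1) (fun z => (hp z).2.2) ?_ ?_).trans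
      CELE_bd2
    · intro X Y hX hX2 hY hY2
      have hX0 : X < 0 := by linarith
      have h3 := (arm_X h hτ hG hε he (X := X) (Y := Y) (by rw [abs_of_neg hX0]; linarith)
        (by rw [abs_of_neg hX0]; linarith) (abs_le.2 ⟨hY, hY2⟩)).2.1
      rw [sign_neg hX0] at h3
      simpa using h3
    · intro X Y hX hX2 hY hY2
      have hX0 : X < 0 := by linarith
      have h3 := (arm_X h hτ hG hε he (X := X) (Y := Y) (by rw [abs_of_neg hX0]; linarith)
        (by rw [abs_of_neg hX0]; linarith) (abs_le.2 ⟨hY, hY2⟩)).2.2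
      rw [sub_zero]
      exact h3
  have a3 : ∫ X in (-cc)..cc, ∫ Y in cc..√2, dn (jG G) (X, Y) ≤ 60 * √ε := by
    refine (arm_int' hgood (η := 4 * √ε) (gX := 0) (gY := 1 / 2) (by linarith) cs (by linarith)
      (by linarith)
      (by linarith) (by linarith) (fun z => (hn z).1) (fun z => (hn z).2.1) (fun z => (hn z).2.2) ?_ ?_).trans
      CELE_bd'
    · intro X Y hX hX2 hY hY2
      have hY0 : 0 < Y := lt_of_lt_of_le c0 hY
      have h3 := (arm_Y h hτ hG hε he (X := X) (Y := Y) (by rw [abs_of_pos hY0]; exact hY)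
        (by rw [abs_of_pos hY0]; exact hY2) (abs_le.2 ⟨hX, hX2⟩)).2.1
      rw [sub_zero]
      exact h3
    · intro X Y hX hX2 hY hY2
      have hY0 : 0 < Y := lt_of_lt_of_le c0 hY
      have h3 := (arm_Y h hτ hG hε he (X := X) (Y := Y) (by rw [abs_of_pos hY0]; exact hY)
        (by rw [abs_of_pos hY0]; exact hY2) (abs_le.2 ⟨hX, hX2⟩)).2.2
      rw [sign_pos hY0] at h3
      simpa using h3
  have a4 : ∫ X in (-cc)..cc, ∫ Y in (-√2)..(-cc), dn (jG G) (X, Y) ≤ 60 * √ε := by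
    refine (arm_int' hgood (η := 4 * √ε) (gX := 0) (gY := -1 / 2) (by linarith) (by linarith) (by linarith)
      (by linarith)
      (by linarith) (by linarith) (fun z => (hn z).1) (fun z => (hn z).2.1) (fun z => (hn z).2.2) ?_ ?_).trans
      CELE_bd2'
    · intro X Y hX hX2 hY hY2
      have hY0 : Y < 0 := by linarith
      have h3 := (arm_Y h hτ hG hε he (X := X) (Y := Y) (by rw [abs_of_neg hY0]; linarith)
        (by rw [abs_of_neg hY0]; linarith) (abs_le.2 ⟨hX, hX2⟩)).2.1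
      rw [sub_zero]
      exact h3
    · intro X Y hX hX2 hY hY2
      have hY0 : Y < 0 := by linarith
      have h3 := (arm_Y h hτ hG hε he (X := X) (Y := Y) (by rw [abs_of_neg hY0]; linarith)
        (by rw [abs_of_neg hY0]; linarith) (abs_le.2 ⟨hX, hX2⟩)).2.2
      rw [sign_neg hY0] at h3
      simpa using h3
  rw [hdn] at *
  linarith

end Pool.Agent.MEQ
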