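import Pool.Agent.MEQ.Cov
import Pool.Agent.MEIS.SHB
/-!
Arc. If the support function is the reference function on the core of a square, the arc is in the body.
-/
set_option autoImplicit false

open MeasureTheory Set Metric Pool.Agent.MEIS Pool.Agent.MSQ Pool.Agent.MGE Pool.Agent.MGF

namespace Pool.Agent.MEQ

/-- `H` is the reference function on the core -/
def CoreEq (H : E → ℝ) : Prop :=
  ∀ X Y : ℝ, |X| ≤ cc → 3 * Y ^ 2 ≤ 1 + X ^ 2 → H (P (X, Y)) = √3 / 2 * √(1 + X ^ 2) - cc / 2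

theorem inner_pA (x : E) (X : ℝ) : inner ℝ x (pA X) =
    √3 / 2 * ((x 0 * X + x 2) / √(1 + X ^ 2)) - x 2 * (cc / 2) := by
  rw [pA, inner_pt]
  ring

/-- the core function is the maximum over the arc -/
theorem pA_le (X X' : ℝ) : (1 + X * X') / √(1 + X ^ 2) ≤ √(1 + X' ^ 2) := by
  have h1 := sX_pos X
  have h2 := sX_sq X
  have h3 := sX_sq X'
  have h4 := sX_pos X'
  rw [div_le_iff₀ h1]
  apply le_of_sq_le_sq _ (by positivity)
  rw [mul_pow, h2, h3]
  nlinarith [sq_nonneg (X - X')]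

theorem pA_self (X : ℝ) : (1 + X * X) / √(1 + X ^ 2) = √(1 + X ^ 2) := by
  have h1 := sX_pos X
  have h2 := sX_sq X
  rw [div_eq_iff h1.ne', ← sq, ← sq, h2]

theorem pA_body_int {H : E → ℝ} {R : ℝ} (hS : SH H R) (hc : CoreEq H) {X : ℝ} (hX : |X| < cc) :
    pA X ∈ Body H := by
  intro v
  have c1 : Continuous fun ε : ℝ => cc * (1 + ε * v 2) - |X + ε * v 0| := by fun_prop
  have c2 : Continuous fun ε : ℝ => (1 + ε * v 2) ^ 2 + (X + ε * v 0) ^ 2 - 3 * (ε * v 1) ^ 2 := by fun_prop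
  have c3 : Continuous fun ε : ℝ => 1 + ε * v 2 := by fun_prop
  have e1 : ∀ᶠ ε : ℝ in nhds 0, 0 < cc * (1 + ε * v 2) - |X + ε * v 0| := by
    apply c1.tendsto 0 |>.eventually_const_lt
    simp only [zero_mul, add_zero, mul_one]
    linarith
  have e2 : ∀ᶠ ε : ℝ in nhds 0, 0 < (1 + ε * v 2) ^ 2 + (X + ε * v 0) ^ 2 - 3 * (ε * v 1) ^ 2 := by
    apply c2.tendsto 0 |>.eventually_const_lt
    nlinarith [sq_nonneg X]
  have e3 : ∀ᶠ ε : ℝ in nhds 0, 0 < 1 + ε * v 2 := by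
    apply c3.tendsto 0 |>.eventually_const_lt
    norm_num
  have e4 : ∀ᶠ ε : ℝ in nhdsWithin 0 (Ioi 0), (0 < cc * (1 + ε * v 2) - |X + ε * v 0| ∧
      0 < (1 + ε * v 2) ^ 2 + (X + ε * v 0) ^ 2 - 3 * (ε * v 1) ^ 2 ∧ 0 < 1 + ε * v 2) ∧ 0 < ε := by
    refine Filter.Eventually.and ?_ self_mem_nhdsWithin
    exact nhdsWithin_le_nhds (e1.and (e2.and e3))
  obtain ⟨ε, ⟨h1, h2, h3⟩, h0⟩ := e4.exists
  obtain ⟨t, ht⟩ : ∃ t, t = 1 + ε * v 2 := ⟨_, rfl⟩
  rw [← ht] at h1 h2 h3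
  have hx : P (X, 0) + ε • v = t • P ((X + ε * v 0) / t, ε * v 1 / t) := by
    rw [MGE.P, MGE.P, smul_pt]
    apply e_ext
    · show X + ε * v 0 = _
      rw [pt0]
      field_simp
    · show 0 + ε * v 1 = _
      rw [pt1]
      field_simp
      ring
    · show 1 + ε * v 2 = _
      rw [pt2, mul_one, ht]
  have hX' : |(X + ε * v 0) / t| ≤ cc := by
    rw [abs_div, abs_of_pos h3, div_le_iff₀ h3]
    linarith
  have hY' : 3 * (ε * v 1 / t) ^ 2 ≤ 1 + ((X + ε * v 0) / t) ^ 2 := by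
    rw [div_pow, div_pow, ← mul_div_assoc, div_le_iff₀ (by positivity), add_mul, div_mul_cancel₀ _ (by positivity)]
    linarith
  have hH := hc _ _ hX' hY'
  have hlow : inner ℝ (P (X, 0) + ε • v) (pA X) ≤ H (P (X, 0) + ε • v) := by
    rw [hx, hS.hom t h3.le, hH, real_inner_smul_left]
    apply mul_le_mul_of_nonneg_left _ h3.le
    rw [inner_pA, MGE.P]
    simp only [pt0, pt2]
    have := pA_le X ((X + ε * v 0) / t)
    have h3' : (0 : ℝ) < √3 := by positivity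
    have e : ((X + ε * v 0) / t * X + 1) / √(1 + X ^ 2) = (1 + X * ((X + ε * v 0) / t)) / √(1 + X ^ 2) := by
      ring
    rw [e]
    have := mul_le_mul_of_nonneg_left this (show 0 ≤ √3 / 2 by positivity)
    linarith
  have hup : H (P (X, 0) + ε • v) ≤ H (P (X, 0)) + ε * H v := by
    have := hS.sub (P (X, 0)) (ε • v)
    rwa [hS.hom ε h0.le] at this
  have h00 := hc X 0 hX.le (by nlinarith [sq_nonneg X])
  have hin : inner ℝ (P (X, 0)) (pA X) = H (P (X, 0)) := by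
    rw [h00, inner_pA, MGE.P]
    simp only [pt0, pt2]
    have := pA_self X
    rw [show X * X + 1 = 1 + X * X by ring, this]
    ring
  rw [inner_add_left, real_inner_smul_left, hin] at hlow
  have : ε * inner ℝ v (pA X) ≤ ε * H v := by linarith
  exact le_of_mul_le_mul_left this h0

theorem cont_pA : Continuous pA := by
  have h : Continuous fun X : ℝ => √(1 + X ^ 2) := by fun_prop
  have hn : ∀ X : ℝ, √(1 + X ^ 2) ≠ 0 := fun X => (sX_pos X).ne'
  have e : pA = fun X => WithLp.toLp 2 ![√3 / 2 * X / √(1 + X ^ 2), 0, √3 / 2 / √(1 + X ^ 2) - cc / 2] := rfl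
  rw [e]
  refine (PiLp.continuous_toLp 2 _).comp ?_
  refine continuous_pi fun i => ?_
  fin_cases i
  · exact (continuous_const.mul continuous_id).div h hn
  · exact continuous_const
  · exact (continuous_const.div h hn).sub continuous_const

theorem closed_Body {H : E → ℝ} : IsClosed (Body H) := by
  have e : Body H = ⋂ x : E, {y | inner ℝ x y ≤ H x} := by
    ext y
    simp [Body]
  rw [e]
  exact isClosed_iInter fun x => isClosed_le (by fun_prop) continuous_const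

theorem pA_body {H : E → ℝ} {R : ℝ} (hS : SH H R) (hc : CoreEq H) {X : ℝ} (hX : |X| ≤ cc) :
    pA X ∈ Body H := by
  have hcl : IsClosed (pA ⁻¹' Body H) := closed_Body.preimage cont_pA
  have hsub : Ioo (-cc) cc ⊆ pA ⁻¹' Body H := fun Z hZ => pA_body_int hS hc (abs_lt.2 hZ)
  have hcc := cc_pos
  have h1 := hcl.closure_subset_iff.2 hsub
  rw [closure_Ioo (by linarith)] at h1
  exact h1 (abs_le.1 hX)

theorem gam_eq {x : E} (hx : x ∈ gam vv 0 1) : ∃ X : ℝ, |X| ≤ cc ∧ x = pA X := by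
  obtain ⟨h, h'⟩ := hx
  have n2 := h' 2 (by decide) (by decide)
  have n3 := h' 3 (by decide) (by decide)
  have n0 := h 0
  have n1 := h 1
  have hc := cc_sq
  have hp := cc_pos
  have ex : x = pt (x 0) (x 1) (x 2) := (pt_eta x).symm
  rw [ex, vv_2, sub_pt, norm_pt, Real.sqrt_eq_one] at n2
  rw [ex, vv_3, sub_pt, norm_pt, Real.sqrt_eq_one] at n3
  rw [ex, vv_0, sub_pt, norm_pt, Real.sqrt_le_one] at n0
  rw [ex, vv_1, sub_pt, norm_pt, Real.sqrt_le_one] at n1
  have hx1 : x 1 = 0 := by linarith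
  rw [hx1] at n0 n1 n2 n3
  obtain ⟨c, hcdef⟩ : ∃ c, c = x 2 + cc / 2 := ⟨_, rfl⟩
  have ex2 : x 2 = c - cc / 2 := by linarith
  rw [ex2] at n0 n1 n2 n3
  have a0 : x 0 ^ 2 + c ^ 2 = 3 / 4 := by linear_combination n2
  have b0 : x 0 + 2 * cc * c ≥ 1 / 2 := by nlinarith
  have b1 : -x 0 + 2 * cc * c ≥ 1 / 2 := by nlinarith
  have hcpos : 0 < c := by
    by_contra hn
    push Not at hn
    nlinarith
  have hX : |x 0 / c| ≤ cc := by
    rw [abs_div, abs_of_pos hcpos, div_le_iff₀ hcpos]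
    by_contra hn
    push Not at hn
    have h3 : (cc * c) ^ 2 < x 0 ^ 2 := by
      rw [← sq_abs (x 0)]
      exact pow_lt_pow_left₀ hn (by positivity) (by norm_num)
    have h4 : c ^ 2 < cc ^ 2 := by
      rw [mul_pow, hc] at h3
      rw [hc]
      linarith
    have h5 : c < cc := lt_of_pow_lt_pow_left₀ 2 hp.le h4
    have h6 : |x 0| ≤ 2 * cc * c - 1 / 2 := abs_le.2 ⟨by linarith, by linarith⟩
    nlinarith
  refine ⟨x 0 / c, hX, ?_⟩
  have hs : √(1 + (x 0 / c) ^ 2) = √3 / (2 * c) := by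
    have : 1 + (x 0 / c) ^ 2 = 3 / (2 * c) ^ 2 := by
      field_simp
      linarith
    rw [this, Real.sqrt_div (by norm_num), Real.sqrt_sq (by positivity)]
  have h3 : (0 : ℝ) < √3 := by positivity
  rw [pA, hs]
  apply e_ext
  · rw [pt0]
    field_simp
  · rw [pt1]
    exact hx1
  · rw [pt2, ex2]
    field_simp

theorem arc_of_core {H : E → ℝ} {R : ℝ} (hS : SH H R) (hc : CoreEq H) : gam vv 0 1 ⊆ Body H := by
  intro x hx
  obtain ⟨X, hX, rfl⟩ := gam_eq hx
  exact pA_body hS hc hX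

theorem SH_comp {H : E → ℝ} {R : ℝ} (h : SH H R) (φ : E ≃ₗᵢ[ℝ] E) : SH (fun x => H (φ x)) R := by
  refine ⟨fun t ht x => ?_, fun x y => ?_, fun x => ?_, fun x => ?_⟩
  · show H (φ (t • x)) = t * H (φ x)
    rw [map_smul, h.hom t ht]
  · show H (φ (x + y)) ≤ H (φ x) + H (φ y)
    rw [map_add]
    exact h.sub _ _
  · show H (φ x) + H (φ (-x)) = ‖x‖
    rw [map_neg, h.wid, φ.norm_map]
  · show H (φ x) ≤ R * ‖x‖
    rw [← φ.norm_map x]
    exact h.bd _

/-- the arc of the pair `σ 0, σ 1` from the reference function in the frame `φ` -/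
theorem arc_frame {H : E → ℝ} {R : ℝ} (hS : SH H R) (φ : E ≃ₗᵢ[ℝ] E) (σ : Fin 4 → Fin 4)
    (hσ : ∀ i, φ (vv i) = vv (σ i)) (hs : Function.Surjective σ) (hc : CoreEq fun x => H (φ x)) :
    gam vv (σ 0) (σ 1) ⊆ Body H := by
  obtain ⟨τ, hτ⟩ := hs.hasRightInverse
  have hinj := Finite.injective_iff_surjective.2 hs
  have hτ' : ∀ i, τ (σ i) = i := fun i => hinj (hτ (σ i))
  intro x hx
  have hφ : ∀ i, φ.symm (vv i) = vv (τ i) := by
    intro i
    have h1 : vv i = φ (vv (τ i)) := by rw [hσ, hτ]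
    rw [h1, φ.symm_apply_apply]
  have hts : Function.Surjective τ := fun i => ⟨σ i, hτ' i⟩
  have h1 := gam_map φ.symm τ hφ hts hx
  rw [hτ', hτ'] at h1
  have h2 := arc_of_core (SH_comp hS φ) hc h1
  intro v
  have h3 := h2 (φ.symm v)
  rw [φ.symm.inner_map_map] at h3
  simpa using h3

end Pool.Agent.MEQ
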