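import Pool.Agent.MEQ.CkE
import Pool.Agent.MSQ.DataE
/-!
CkK1. Kernel computations: the core boxes with margin.
-/
set_option autoImplicit false

namespace Pool.Agent.MEQ

open Pool.Agent.MSQ

set_option maxRecDepth 100000

theorem ke0 : cRe DD 1 gCe la22 ro22 cb0 = true := by
  decide +kernel
theorem ke1 : cRe DD 1 gCe la22 ro22 cb1 = true := by
  decide +kernel
theorem ke2 : cRe DD 1 gCe la22 ro22 cb2 = true := by
  decide +kernel
theorem ke3 : cRe DD 1 gCe la22 ro22 cb3 = true := by
  decide +kernel
theorem ke4 : cRe DD 1 gCe la22 ro22 cb4 = true := by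
  decide +kernel
theorem ke5 : cRe DD 1 gCe la22 ro22 cb5 = true := by
  decide +kernel
theorem ke6 : cRe DD 1 gCe la22 ro22 cb6 = true := by
  decide +kernel
theorem ke7 : cRe DD 1 gCe la22 ro22 cb7 = true := by
  decide +kernel
theorem ke8 : cRe DD 1 gCe la22 ro22 cb8 = true := by
  decide +kernel
theorem ke9 : cRe DD 1 gCe la22 ro22 cb9 = true := by
  decide +kernel
theorem ke10 : cRe DD 1 gCe la22 ro22 cb10 = true := by
  decide +kernel
theorem ke11 : cRe DD 1 gCe la22 ro22 cb11 = true := by
  decide +kernel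

end Pool.Agent.MEQ
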