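import Pool.Agent.MSQ.RDiv
import Pool.Agent.MSQ.DivQ
import Pool.Agent.MSQ.DivL
import Pool.Agent.MSQ.JAll
import Pool.Agent.MEQ.CtE
import Pool.Agent.MSQ.CFa
import Pool.Agent.MSQ.CPa
import Pool.Agent.MSQ.PtC
import Pool.Agent.MSQ.VEdge
import Pool.Agent.MSQ.HypR
import Pool.Agent.MSQ.EA2
/-!
CRegE. The core region with margin (copy of MSQ.CReg).
-/
set_option autoImplicit false

open Pool.Agent.MSQ

namespace Pool.Agent.MEQ

private theorem CRegE_N (y : ℝ) : 0 < Nf y ∧ Nf y ^ 2 = 1 + y ^ 2 / 3 := by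
  have h : (0 : ℝ) < 1 + y ^ 2 / 3 := by positivity
  exact ⟨Real.sqrt_pos.mpr h, Real.sq_sqrt h.le⟩

private theorem CRegE_m (x : ℝ) : 1 ≤ mf x := by
  unfold mf
  nlinarith [sq_nonneg x]

private theorem CRegE_cm : Continuous fun z : ℝ × ℝ => mf z.1 := by
  unfold mf
  fun_prop

private theorem CRegE_cN : Continuous fun z : ℝ × ℝ => Nf z.2 := by
  unfold Nf
  fun_prop

private theorem CRegE_bid (D y : ℝ) (s t : St) :
    D / 2 * (bC y s + bC y t) =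
      (D * (3 * (1 + y ^ 2 / 3) * (s.hs t).u * (s.hs t).mu + (s.hs t).u * (s.hs t).ka)) / Nf y ^ 3 +
      (D * (3 * (1 + y ^ 2 / 3) * (s.hd t).u * (s.hd t).mu + (s.hd t).u * (s.hd t).ka)) / Nf y ^ 3 +
      D * (2 - √3 * Nf y) * ((s.u + t.u) / 2) / Nf y ^ 4 := by
  obtain ⟨h0, h2⟩ := CRegE_N y
  rw [← h2]
  simp only [bC, St.hs, St.hd]
  field_simp
  ring

private theorem CRegE_key {D y T L K Re Ro Qe Qo : ℝ} {s t : St}
    (hT : T = (D * (3 * (1 + y ^ 2 / 3) * (s.hs t).u * (s.hs t).mu + (s.hs t).u * (s.hs t).ka) -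
        Re) / Nf y ^ 3 +
      (D * (3 * (1 + y ^ 2 / 3) * (s.hd t).u * (s.hd t).mu + (s.hd t).u * (s.hd t).ka) -
        Ro) / Nf y ^ 3 + L)
    (hRe : (EP : ℝ) / 12 * (s.hs t).u ^ 2 ≤ Re + Qe) (hRo : (EP : ℝ) / 12 * (s.hd t).u ^ 2 ≤ Ro + Qo)
    (hp : -K ≤ (-Qe - Qo) / Nf y ^ 3 + D * (2 - √3 * Nf y) * ((s.u + t.u) / 2) / Nf y ^ 4 - L) :
    T - K + (EP : ℝ) / 24 * (s.u ^ 2 + t.u ^ 2) / Nf y ^ 3 ≤ D / 2 * (bC y s + bC y t) := by
  obtain ⟨h0, h2⟩ := CRegE_N y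
  rw [CRegE_bid, hT]
  have e1 : (EP : ℝ) / 12 * (s.hs t).u ^ 2 + (EP : ℝ) / 12 * (s.hd t).u ^ 2 =
      (EP : ℝ) / 24 * (s.u ^ 2 + t.u ^ 2) := by
    simp only [St.hs, St.hd]
    ring
  have h1 : (EP : ℝ) / 24 * (s.u ^ 2 + t.u ^ 2) / Nf y ^ 3 ≤ (Re + Qe + (Ro + Qo)) / Nf y ^ 3 :=
    div_le_div_of_nonneg_right (by linarith) (by positivity)
  simp only [sub_div, add_div, neg_div] at h1 hp ⊢
  linarith

private theorem CRegE_cb {S : ℝ → ℝ → St} {Z E : ℝ → ℝ → ℝ} (hS : JS S Z E) :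
    Continuous fun z : ℝ × ℝ => bC z.2 (S z.1 z.2) / mf z.1 := by
  have c1 := hS.cu
  have c2 := hS.cmu
  have c3 := hS.cka
  have c4 := CRegE_cN
  have c5 := CRegE_cm
  have h0 : ∀ z : ℝ × ℝ, Nf z.2 ≠ 0 := fun z => (CRegE_N z.2).1.ne'
  have h1 : ∀ z : ℝ × ℝ, mf z.1 ≠ 0 := fun z => (lt_of_lt_of_le one_pos (CRegE_m z.1)).ne'
  refine Continuous.div ?_ c5 h1
  unfold bC
  refine Continuous.add (Continuous.div ?_ (c4.pow 3) fun z => pow_ne_zero _ (h0 z))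
    (Continuous.div ?_ (c4.pow 4) fun z => pow_ne_zero _ (h0 z))
  · exact (((continuous_const.mul (c4.pow 2)).mul c1).mul c2).add (c1.mul c3)
  · exact (continuous_const.sub (continuous_const.mul c4)).mul c1

theorem cregE : ∃ C : ℝ, 0 ≤ C ∧ ∀ (δ : ℝ) (J : Jet), Hyp J δ → 1 / 2 ≤ J.f (0, 0) →
    (∫ x in (0:ℝ)..1, V1C x 1 (eC J x 1) (oC J x 1) / mf x) -
      (∫ x in (0:ℝ)..1, V1C x 0 (eC J x 0) (oC J x 0) / mf x) -
      (∫ y in (0:ℝ)..1, V2C 0 y (eC J 0 y) (oC J 0 y)) - C * δ +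
      100000 * RI 0 1 0 1 (fun x y => (AC J x y).u ^ 2 + (AC J.ry x y).u ^ 2) ≤
    (DD : ℝ) / 2 * (RI 0 1 0 1 (fun x y => bC y (AC J x y) / mf x) +
      RI 0 1 0 1 (fun x y => bC y (AC J.ry x y) / mf x)) := by
  obtain ⟨Cv, hCv, hv⟩ := vedge
  obtain ⟨B0, hB00, hB0⟩ := certCE
  have hDD : (0 : ℝ) ≤ (DD : ℝ) := by norm_num [DD]
  set B : ℝ := B0 + (DD : ℝ) with hBdef
  have hBB : B0 ≤ B := by linarith
  have hBpos : 0 ≤ B := by linarith
  refine ⟨Cv + 1000 * B, by positivity, fun δ J h hb => ?_⟩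
  have hδ := h.pos
  have hry := hyp_ry h
  have hbr : 1 / 2 ≤ J.ry.f (0, 0) := by
    change 1 / 2 ≤ J.f (0, -0)
    rw [neg_zero]
    exact hb
  obtain ⟨Ze, Ee, je⟩ := js_eC J h.good
  obtain ⟨Zo, Eo, jo⟩ := js_oC J h.good
  obtain ⟨Zs, Es, js⟩ := js_AC J h.good
  obtain ⟨Zt, Et, jt⟩ := js_AC J.ry (good_ry J h.good)
  obtain ⟨Ae, Be, cAe, cBe, dAe, dBe, ide⟩ := divQ je (DD : ℝ) gCe
  obtain ⟨Ao, Bo, cAo, cBo, dAo, dBo, ido⟩ := divQ jo (DD : ℝ) gCo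
  have cme := CRegE_cm
  have hm0 : ∀ z : ℝ × ℝ, mf z.1 ≠ 0 := fun z => (lt_of_lt_of_le one_pos (CRegE_m z.1)).ne'
  have cAl : Continuous fun z : ℝ × ℝ => (fun x y => ev x y cf1 * (eC J x y).mu -
      ev x y (pDY (pDY cf1)) * (eC J x y).u) z.1 z.2 :=
    ((continuous_ev cf1).mul je.cmu).sub ((continuous_ev (pDY (pDY cf1))).mul je.cu)
  have cA : Continuous fun z : ℝ × ℝ =>
      (fun x y => Ae x y + Ao x y + (ev x y cf1 * (eC J x y).mu -
        ev x y (pDY (pDY cf1)) * (eC J x y).u)) z.1 z.2 := (cAe.add cAo).add cAl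
  have cB : Continuous fun z : ℝ × ℝ =>
      (fun x y => Be x y + Bo x y) z.1 z.2 := cBe.add cBo
  have cV1 : Continuous fun z : ℝ × ℝ =>
      V1C z.1 z.2 (eC J z.1 z.2) (oC J z.1 z.2) := by
    have a1 := (cont_Vq je gCe).1
    have a2 := (cont_Vq jo gCo).1
    exact (a1.add a2).add (((continuous_ev cf1).mul je.cq).sub
      ((continuous_ev (pDY cf1)).mul je.cu))
  have cV2 : Continuous fun z : ℝ × ℝ =>
      V2C z.1 z.2 (eC J z.1 z.2) (oC J z.1 z.2) := by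
    have a1 := (cont_Vq je gCe).2
    have a2 := (cont_Vq jo gCo).2
    exact a1.add a2
  have dV1 : ∀ x y, HasDerivAt (fun t => (fun x y => V1C x y (eC J x y) (oC J x y)) x t)
      ((fun x y => Ae x y + Ao x y + (ev x y cf1 * (eC J x y).mu -
        ev x y (pDY (pDY cf1)) * (eC J x y).u)) x y) y := fun x y =>
    ((dAe x y).add (dAo x y)).add (divLC je cf1 x y)
  have dV2 : ∀ x y, HasDerivAt (fun t => (fun x y => V2C x y (eC J x y) (oC J x y)) t y)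
      ((fun x y => Be x y + Bo x y) x y) x := fun x y => (dBe x y).add (dBo x y)
  have hdiv := RI_div 0 1 0 1
    (fun x y => V1C x y (eC J x y) (oC J x y)) (fun x y => V2C x y (eC J x y) (oC J x y))
    (fun x y => Ae x y + Ao x y + (ev x y cf1 * (eC J x y).mu -
        ev x y (pDY (pDY cf1)) * (eC J x y).u)) (fun x y => Be x y + Bo x y)
    cA cB dV1 dV2
  -- pointwise
  have hpt : ∀ x y : ℝ, 0 ≤ x → x ≤ 1 → 0 ≤ y → y ≤ 1 →
      (fun x y => ((fun x y => Ae x y + Ao x y + (ev x y cf1 * (eC J x y).mu -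
        ev x y (pDY (pDY cf1)) * (eC J x y).u)) x y +
        mf x * (fun x y => Be x y + Bo x y) x y) / mf x) x y +
          (fun _ _ => (-1 : ℝ) * (1000 * B * δ)) x y +
          (fun x y => 100000 * ((AC J x y).u ^ 2 + (AC J.ry x y).u ^ 2)) x y ≤
      (fun x y => (DD : ℝ) / 2 * (bC y (AC J x y) / mf x + bC y (AC J.ry x y) / mf x)) x y := by
    intro x y h0 h1 h2 h3
    obtain ⟨hf1, hf2, M, hM, hMB, hMe, hMo⟩ := hB0 x y h0 h1 h2 h3
    have hMB' : M.Le B := by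
      unfold CM.Le at hMB ⊢
      obtain ⟨g1, g2, g3, g4, g5, g6, g7, g8, g9, g10, g11, g12, g13, g14, g15⟩ := hMB
      refine ⟨?_, ?_, ?_, ?_, ?_, ?_, ?_, ?_, ?_, ?_, ?_, ?_, ?_, ?_, ?_⟩ <;> linarith
    have hs := cfa h hb x y h0 h1 h2 h3
    have ht := cfa hry hbr x y h0 h1 h2 h3
    have hst := cpa h hb x y h0 h1 h2 h3
    have hp := ptC δ x y (DD : ℝ) B (ev x y cf1) (ev x y (pDY (pDY cf1))) M (AC J x y)
      (AC J.ry x y) hδ.le h.le1 h0 h1 h2 h3 hDD (by linarith) (by linarith) (by linarith) hM hMB'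
      hs ht hst (ea_bd2 x y h0 h1 h2 h3)
    have hkey := CRegE_key (T := (Ae x y + Ao x y + (ev x y cf1 * (eC J x y).mu -
        ev x y (pDY (pDY cf1)) * (eC J x y).u)) + mf x * (Be x y + Bo x y))
      (D := (DD : ℝ)) (y := y) (L := ev x y cf1 * (((AC J x y).mu + (AC J.ry x y).mu) / 2) -
        ev x y (pDY (pDY cf1)) * (((AC J x y).u + (AC J.ry x y).u) / 2))
      (K := 1000 * B * δ) (s := AC J x y) (t := AC J.ry x y)
      (Re := Rg (DD : ℝ) gCe x y ((AC J x y).hs (AC J.ry x y)))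
      (Ro := Rg (DD : ℝ) gCo x y ((AC J x y).hd (AC J.ry x y)))
      (Qe := M.Q 1 x y ((AC J x y).hs (AC J.ry x y)))
      (Qo := M.Q 0 x y ((AC J x y).hd (AC J.ry x y)))
      (by
        have e1 := ide x y
        have e2 := ido x y
        have e4 : (Ae x y + Ao x y + (ev x y cf1 * (eC J x y).mu -
            ev x y (pDY (pDY cf1)) * (eC J x y).u)) + mf x * (Be x y + Bo x y) =
          (Ae x y + mf x * Be x y) + (Ao x y + mf x * Bo x y) + (ev x y cf1 * (eC J x y).mu -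
            ev x y (pDY (pDY cf1)) * (eC J x y).u) := by
          ring
        rw [e4, e1, e2]
        rfl)
      (hMe _) (hMo _) (by linarith)
    have hm := CRegE_m x
    have hmp : 0 < mf x := lt_of_lt_of_le one_pos hm
    have hK : 0 ≤ 1000 * B * δ := by positivity
    have hK2 : 1000 * B * δ / mf x ≤ 1000 * B * δ := div_le_self hK hm
    have hdivm := div_le_div_of_nonneg_right hkey hmp.le
    change ((Ae x y + Ao x y + (ev x y cf1 * (eC J x y).mu -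
        ev x y (pDY (pDY cf1)) * (eC J x y).u)) + mf x * (Be x y + Bo x y)) / mf x +
      (-1 : ℝ) * (1000 * B * δ) + 100000 * ((AC J x y).u ^ 2 + (AC J.ry x y).u ^ 2) ≤
      (DD : ℝ) / 2 * (bC y (AC J x y) / mf x + bC y (AC J.ry x y) / mf x)
    have e5 : (DD : ℝ) / 2 * (bC y (AC J x y) / mf x + bC y (AC J.ry x y) / mf x) =
        (DD : ℝ) / 2 * (bC y (AC J x y) + bC y (AC J.ry x y)) / mf x := by
      ring
    rw [e5]
    rw [add_div, sub_div] at hdivm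
    have e6 : 100000 * ((AC J x y).u ^ 2 + (AC J.ry x y).u ^ 2) ≤
        (EP : ℝ) / 24 * ((AC J x y).u ^ 2 + (AC J.ry x y).u ^ 2) / Nf y ^ 3 / mf x := by
      obtain ⟨n0, n2⟩ := CRegE_N y
      have n3 : Nf y ≤ 6 / 5 := by
        by_contra hn
        push Not at hn
        nlinarith
      have n4 : Nf y ^ 3 ≤ 8 / 5 := by
        have : Nf y ^ 3 = Nf y ^ 2 * Nf y := by ring
        rw [this, n2]
        nlinarith
      have m1 : mf x ≤ 3 / 2 := by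
        unfold mf
        nlinarith
      rw [div_div, le_div_iff₀ (by positivity)]
      have n5 : Nf y ^ 3 * mf x ≤ 12 / 5 := by
        have := mul_le_mul n4 m1 hmp.le (by norm_num)
        linarith
      have n6 : (0 : ℝ) ≤ (AC J x y).u ^ 2 + (AC J.ry x y).u ^ 2 := by positivity
      have n7 := mul_le_mul_of_nonneg_left n5 n6
      have n8 : (EP : ℝ) = 12000000 := by norm_num [EP]
      rw [n8]
      nlinarith
    linarith
  have cf1' : Continuous fun z : ℝ × ℝ => (fun x y => ((fun x y => Ae x y + Ao x y +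
        (ev x y cf1 * (eC J x y).mu - ev x y (pDY (pDY cf1)) * (eC J x y).u)) x y +
        mf x * (fun x y => Be x y + Bo x y) x y) / mf x) z.1 z.2 :=
    (cA.add (cme.mul cB)).div cme hm0
  have cf2 : Continuous fun z : ℝ × ℝ => (fun _ _ : ℝ => (-1 : ℝ) * (1000 * B * δ)) z.1 z.2 :=
    continuous_const
  have cf3 : Continuous fun z : ℝ × ℝ => (fun x y => 100000 * ((AC J x y).u ^ 2 +
      (AC J.ry x y).u ^ 2)) z.1 z.2 :=
    continuous_const.mul ((js.cu.pow 2).add (jt.cu.pow 2))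
  have cg1 := CRegE_cb js
  have cg2 := CRegE_cb jt
  have cg : Continuous fun z : ℝ × ℝ => (fun x y => (DD : ℝ) / 2 *
      (bC y (AC J x y) / mf x + bC y (AC J.ry x y) / mf x)) z.1 z.2 :=
    continuous_const.mul (cg1.add cg2)
  have hmono := RI_mono 0 1 0 1 zero_le_one zero_le_one
      (fun x y => (fun x y => ((fun x y => Ae x y + Ao x y + (ev x y cf1 * (eC J x y).mu -
        ev x y (pDY (pDY cf1)) * (eC J x y).u)) x y +
        mf x * (fun x y => Be x y + Bo x y) x y) / mf x) x y +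
          (fun _ _ => (-1 : ℝ) * (1000 * B * δ)) x y +
          (fun x y => 100000 * ((AC J x y).u ^ 2 + (AC J.ry x y).u ^ 2)) x y)
      (fun x y => (DD : ℝ) / 2 * (bC y (AC J x y) / mf x + bC y (AC J.ry x y) / mf x))
      ((cf1'.add cf2).add cf3) cg hpt
  rw [RI_add _ _ _ _ _ _ (cf1'.add cf2) cf3, RI_add _ _ _ _ _ _ cf1' cf2, RI_const,
    RI_mul _ _ _ _ 100000 (fun x y => (AC J x y).u ^ 2 + (AC J.ry x y).u ^ 2),
    RI_mul _ _ _ _ ((DD : ℝ) / 2) (fun x y => bC y (AC J x y) / mf x + bC y (AC J.ry x y) / mf x),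
    RI_add 0 1 0 1 (fun x y => bC y (AC J x y) / mf x) (fun x y => bC y (AC J.ry x y) / mf x) cg1 cg2,
    hdiv] at hmono
  refine le_trans ?_ hmono
  -- splitting of the boundary integrals
  have cmx : Continuous fun x : ℝ => mf x := by
    unfold mf
    fun_prop
  have hmx : ∀ x : ℝ, mf x ≠ 0 := fun x => (lt_of_lt_of_le one_pos (CRegE_m x)).ne'
  have c1 : Continuous fun x : ℝ => V1C x 1 (eC J x 1) (oC J x 1) / mf x :=
    (cV1.comp (f := fun x : ℝ => ((x, 1) : ℝ × ℝ)) (by fun_prop)).div cmx hmx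
  have c0 : Continuous fun x : ℝ => V1C x 0 (eC J x 0) (oC J x 0) / mf x :=
    (cV1.comp (f := fun x : ℝ => ((x, 0) : ℝ × ℝ)) (by fun_prop)).div cmx hmx
  have s1 : (∫ x in (0:ℝ)..1, (V1C x 1 (eC J x 1) (oC J x 1) -
      V1C x 0 (eC J x 0) (oC J x 0)) / mf x) =
      (∫ x in (0:ℝ)..1, V1C x 1 (eC J x 1) (oC J x 1) / mf x) -
      ∫ x in (0:ℝ)..1, V1C x 0 (eC J x 0) (oC J x 0) / mf x := by
    rw [← intervalIntegral.integral_sub (c1.intervalIntegrable _ _) (c0.intervalIntegrable _ _)]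
    congr 1
    funext x
    rw [sub_div]
  have d1 : Continuous fun y : ℝ => V2C 1 y (eC J 1 y) (oC J 1 y) :=
    cV2.comp (f := fun y : ℝ => ((1, y) : ℝ × ℝ)) (by fun_prop)
  have d0 : Continuous fun y : ℝ => V2C 0 y (eC J 0 y) (oC J 0 y) :=
    cV2.comp (f := fun y : ℝ => ((0, y) : ℝ × ℝ)) (by fun_prop)
  have s2 : (∫ y in (0:ℝ)..1, (V2C 1 y (eC J 1 y) (oC J 1 y) -
      V2C 0 y (eC J 0 y) (oC J 0 y))) =
      (∫ y in (0:ℝ)..1, V2C 1 y (eC J 1 y) (oC J 1 y)) -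
      ∫ y in (0:ℝ)..1, V2C 0 y (eC J 0 y) (oC J 0 y) :=
    intervalIntegral.integral_sub (d1.intervalIntegrable _ _) (d0.intervalIntegrable _ _)
  have s3' : -(Cv * δ) ≤ ∫ y in (0:ℝ)..1, V2C 1 y (eC J 1 y) (oC J 1 y) := by
    have hb1 : ∀ y ∈ Set.Icc (0:ℝ) 1, -(Cv * δ) ≤ V2C 1 y (eC J 1 y) (oC J 1 y) :=
      fun y hy => (abs_le.mp ((hv δ J h).1 y hy.1 hy.2).1).1
    have := intervalIntegral.integral_mono_on (μ := MeasureTheory.volume)
      (f := fun _ : ℝ => -(Cv * δ)) (g := fun y : ℝ => V2C 1 y (eC J 1 y) (oC J 1 y))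
      zero_le_one (continuous_const.intervalIntegrable _ _) (d1.intervalIntegrable _ _) hb1
    simpa using this
  have e6 : (Cv + 1000 * B) * δ = Cv * δ + 1000 * B * δ := by ring
  rw [e6, s1, s2]
  linarith

end Pool.Agent.MEQ
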