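import Pool.Agent.MSQ.RSound
/-!
CkE. The checks of the core boxes of the exact-case certificate (MSQ) with a margin `EP u^2` in the residual forms.
-/
set_option autoImplicit false

namespace Pool.Agent.MEQ

open Pool.Agent.MSQ

/-- subtract `ep` from the first entry -/
def sube (ep : Int) : List P → List P
  | [] => []
  | p :: t => pAdd p (cP (-ep)) :: t

/-- the margin: `12 * 10^6` in the form `12 (Rg + Q)` -/
def EP : Int := 12000000

def cRe (D e : Int) (g : GB) (la22 ro22 : P) (b : CBox) : Bool :=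
  chkM 5 (sube EP (drop5 (List.zipWith pAdd (R12 D g) (coreAdd e la22 ro22 b)))) b.x0 b.x1 b.qx b.y0 b.y1 b.qy

theorem qf_sube (ep : Int) (L : List P) (hL : L ≠ []) (x y u : ℝ) (v : List ℝ) :
    qf (evE x y (sube ep L)) (u :: v) = qf (evE x y L) (u :: v) - ep * u ^ 2 := by
  cases L with
  | nil => exact absurd rfl hL
  | cons p t =>
    simp only [sube, evE, List.map_cons, qf, List.take_succ_cons, List.drop_succ_cons, dotL, ev_pAdd, ev_cP]
    push_cast
    ring

theorem drop5_ne {l : List P} (h : l.length = 21) : drop5 l ≠ [] := by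
  intro h0
  have h1 := congrArg List.length h0
  simp [drop5, h] at h1

private theorem ck_derA (y : ℝ) (c k : Int) (l : List Int) :
    evL y (derA k (smV c l)) = c * evL y (derA k l) := by
  induction l generalizing k with
  | nil => simp [smV, derA, evL]
  | cons a l ih =>
    have h1 : derA k (smV c (a :: l)) = (k * (c * a)) :: derA (k + 1) (smV c l) := rfl
    have h2 : derA k (a :: l) = (k * a) :: derA (k + 1) l := rfl
    rw [h1, h2]
    have h3 : ∀ (z : Int) (t : List Int), evL y (z :: t) = (z : ℝ) + y * evL y t := fun _ _ => rfl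
    rw [h3, h3, ih]
    push_cast
    ring

private theorem ck_der (y : ℝ) (c : Int) (l : List Int) :
    evL y (der (smV c l)) = c * evL y (der l) := by
  cases l with
  | nil => simp [smV, der, derA, evL]
  | cons a l =>
    have h1 : der (smV c (a :: l)) = derA 1 (smV c l) := rfl
    have h2 : der (a :: l) = derA 1 l := rfl
    rw [h1, h2, ck_derA]

private theorem ck_pDY (x y : ℝ) (c : Int) (p : P) :
    ev x y (pDY (pSm c p)) = c * ev x y (pDY p) := by
  induction p with
  | nil => simp [pDY, pSm, smP, ev]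
  | cons r l ih =>
    have h1 : pDY (pSm c (r :: l)) = der (smV c r) :: pDY (pSm c l) := rfl
    have h2 : pDY (r :: l) = der r :: pDY l := rfl
    have h3 : ∀ (z : List Int) (t : P), ev x y (z :: t) = evL y z + x * ev x y t := fun _ _ => rfl
    rw [h1, h2, h3, h3, ih, ck_der]
    ring

private theorem ck_Af (x y : ℝ) (c : Int) (p : P) :
    Af x y (pSm c p) = c * Af x y p := by
  unfold Af
  rw [ck_pDY, ev_pSm]
  ring

theorem cRe_sound (D e : Int) (G11 G12 G13 G22 G23 G33 H11 H12 H22 l r : P) (b : CBox)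
    (h : cRe D e (coreG D G11 G12 G13 G22 G23 G33 H11 H12 H22 l r) l r b = true) (x y : ℝ)
    (hb : b.In x y) (s : St) :
    (EP : ℝ) / 12 * s.u ^ 2 ≤ Rg D (coreG D G11 G12 G13 G22 G23 G33 H11 H12 H22 l r) x y s +
      (b.at l r x y).Q e x y s := by
  obtain ⟨b1, b2, b3, b4⟩ := hb
  have h1 := chkM_sound 5 _ _ _ _ _ _ _ h x y b1 b2 b3 b4 [s.u, s.q, s.p, s.mu, s.nu] rfl
  rw [qf_sube _ _ (drop5_ne rfl)] at h1
  rw [qf_drop5 _ rfl x y s, qf_zip _ _ rfl rfl, R12_eval, coreAdd_eval] at h1
  · linarith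
  · change ev x y (pAdd (sumP [cP (12 * D), pSm (-6) (pAdd (cP (2 * D)) (pSm (-6) r))])
      (pSm (-36) r)) = 0
    simp only [ev_pAdd, ev_sumP, List.map_cons, List.map_nil, List.sum_cons, List.sum_nil,
      ev_pSm, ev_cP]
    push_cast
    ring
  · change ev x y (pAdd (sumP [pSm (-6) (pSm (-6) (AG l)), pSm (-4) (AG (pSm 9 l))]) []) = 0
    simp only [ev_pAdd, ev_sumP, List.map_cons, List.map_nil, List.sum_cons, List.sum_nil,
      ev_pSm, ev_AG, ev_nil, ck_Af]
    push_cast
    ring
  · change ev x y (pAdd (pSm (-6) []) []) = 0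
    simp only [ev_pAdd, ev_pSm, ev_nil]
    ring
  · change ev x y (pAdd (pSm (-4) (N3 (pSm 9 l))) (pSm 36 (N3 l))) = 0
    simp only [ev_pAdd, ev_pSm, ev_N3]
    push_cast
    ring
  · change ev x y (pAdd [] []) = 0
    simp only [ev_pAdd, ev_nil]
    ring
  · change ev x y (pAdd [] []) = 0
    simp only [ev_pAdd, ev_nil]
    ring

end Pool.Agent.MEQ
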