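import Pool.Agent.MEQ.Sq
import Pool.Agent.MGF.COV2
import Pool.Agent.MGF.FRG
/-!
Cov. Every direction is covered, up to sign, by the chords of the vertices and of one arc of each pair of opposite
edges.
-/
set_option autoImplicit false

open MeasureTheory Set Metric Pool.Agent.MEIS Pool.Agent.MSQ Pool.Agent.MGE Pool.Agent.MGF

namespace Pool.Agent.MEQ

theorem gam_symm (a : Fin 4 → E) (i j : Fin 4) : gam a i j = gam a j i := by
  ext x
  exact ⟨fun h => ⟨h.1, fun k h1 h2 => h.2 k h2 h1⟩, fun h => ⟨h.1, fun k h1 h2 => h.2 k h2 h1⟩⟩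

theorem gam_map (φ : E ≃ₗᵢ[ℝ] E) (σ : Fin 4 → Fin 4) (hσ : ∀ i, φ (vv i) = vv (σ i))
    (hs : Function.Surjective σ) {i j : Fin 4} {x : E} (hx : x ∈ gam vv i j) :
    φ x ∈ gam vv (σ i) (σ j) := by
  refine ⟨fun m => ?_, fun m h1 h2 => ?_⟩
  · obtain ⟨n, rfl⟩ := hs m
    rw [← hσ, ← map_sub, φ.norm_map]
    exact hx.1 n
  · obtain ⟨n, rfl⟩ := hs m
    rw [← hσ, ← map_sub, φ.norm_map]
    exact hx.2 n (fun h => h1 (by rw [h])) (fun h => h2 (by rw [h]))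

theorem sq_covI {D : Set E} (hv : ∀ i, vv i ∈ D) (φ : E ≃ₗᵢ[ℝ] E) (σ : Fin 4 → Fin 4)
    (hσ : ∀ i, φ (vv i) = vv (σ i)) (hs : Function.Surjective σ) (ha : gam vv (σ 0) (σ 1) ⊆ D)
    {z : ℝ × ℝ} (hz : z ∈ SqR) : TA D (φ (P z)) ∨ TA D (-φ (P z)) := by
  have e : φ '' (φ.symm '' D) = D := by
    rw [Set.image_image]
    simp
  have hv' : ∀ i, vv i ∈ φ.symm '' D := fun i =>
    ⟨vv (σ i), hv _, by rw [← hσ, φ.symm_apply_apply]⟩
  have ha' : gam vv 0 1 ⊆ φ.symm '' D := fun x hx =>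
    ⟨φ x, ha (gam_map φ σ hσ hs hx), φ.symm_apply_apply x⟩
  rcases sq_cov hv' ha' (X := z.1) (Y := z.2) hz.1 hz.2 with h | h
  · left
    have := TA_map φ h
    rwa [e] at this
  · right
    have := TA_map φ h
    rwa [e, map_neg] at this

theorem TA_zero {D : Set E} (hv : ∀ i, vv i ∈ D) : TA D 0 := by
  have h : ‖vv 0 - vv 1‖ = 1 := vv_sub_norm (by decide)
  exact ⟨vv 0, hv 0, vv 1, hv 1, vv 1, hv 1, vv 1, hv 1, 0, 0, 0, le_rfl, le_rfl, le_rfl, h, h, h, by simp⟩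

theorem TA_tri {D : Set E} (hv : ∀ i, vv i ∈ D) {y : E} (i : Fin 4) (hy : y ∈ NC) : TA D (gr i y) := by
  obtain ⟨a, h0, h1, h2, rfl⟩ := hy
  have hV : TA (Set.range vv) (Wp 0 1 2 3 a) :=
    ⟨vv 0, ⟨0, rfl⟩, vv 1, ⟨1, rfl⟩, vv 2, ⟨2, rfl⟩, vv 3, ⟨3, rfl⟩, a 0, a 1, a 2, h0, h1, h2,
      vv_sub_norm (by decide), vv_sub_norm (by decide), vv_sub_norm (by decide), rfl⟩
  have h3 := TA_map (gr i) hV
  refine TA_mono ?_ h3
  rintro _ ⟨_, ⟨j, rfl⟩, rfl⟩
  have : ∃ m, gr i (vv j) = vv m := by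
    fin_cases i
    · exact ⟨_, gr0_vv j⟩
    · exact ⟨_, gr1_vv j⟩
    · exact ⟨_, gr2_vv j⟩
    · exact ⟨_, gr3_vv j⟩
  obtain ⟨m, hm⟩ := this
  rw [hm]
  exact hv m

/-- the permutations of the three symmetries `fr k` -/
def sg3 : Fin 3 → Fin 4 → Fin 4 := ![![0, 1, 2, 3], ![0, 2, 1, 3], ![0, 3, 2, 1]]

theorem fr_sg (k : Fin 3) (i : Fin 4) : fr k (vv i) = vv (sg3 k i) := by
  fin_cases k
  · exact fr0_vv i
  · exact fr1_vv i
  · exact fr2_vv i

theorem sg3_surj (k : Fin 3) : Function.Surjective (sg3 k) := by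
  revert k
  decide

theorem cn_eq {y : E} (hy : 0 < y 2) : y = y 2 • P (y 0 / y 2, y 1 / y 2) := by
  rw [MGE.P, smul_pt]
  apply e_ext
  · rw [pt0]
    field_simp
  · rw [pt1]
    field_simp
  · rw [pt2]
    ring

theorem cov_sq {D : Set E} (hv : ∀ i, vv i ∈ D) (k : Fin 3)
    (hk : gam vv (sg3 k 0) (sg3 k 1) ⊆ D ∨ gam vv (sg3 k 2) (sg3 k 3) ⊆ D) {z : ℝ × ℝ} (hz : z ∈ SqR) :
    TA D (fr k (P z)) ∨ TA D (-fr k (P z)) := by
  rcases hk with h | h
  · exact sq_covI hv (fr k) (sg3 k) (fr_sg k) (sg3_surj k) h hz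
  · obtain ⟨ψ, hψ, hψv⟩ := exists_swE
    have hz' : (z.2, z.1) ∈ SqR := ⟨hz.2, hz.1⟩
    have hs : Function.Surjective (fun i => sg3 k (![3, 2, 1, 0] i)) :=
      (sg3_surj k).comp (by decide)
    have h' : gam vv (sg3 k (![3, 2, 1, 0] 0)) (sg3 k (![3, 2, 1, 0] 1)) ⊆ D := by
      have : gam vv (sg3 k 3) (sg3 k 2) ⊆ D := by
        rw [gam_symm]
        exact h
      exact this
    have e : (ψ.trans (fr k)) (P (z.2, z.1)) = -fr k (P z) := by
      show fr k (ψ (P (z.2, z.1))) = -fr k (P z)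
      rw [hψ, ← map_neg]
      congr 1
      rw [swE, MGE.P, MGE.P, neg_pt]
      simp only [pt0, pt1, pt2]
    have := sq_covI hv (ψ.trans (fr k)) (fun i => sg3 k (![3, 2, 1, 0] i))
      (fun i => by
        show fr k (ψ (vv i)) = _
        rw [hψv, fr_sg]) hs h' hz'
    rw [e, neg_neg] at this
    exact this.symm

theorem cov_all {D : Set E} (hv : ∀ i, vv i ∈ D)
    (hk : ∀ k : Fin 3, gam vv (sg3 k 0) (sg3 k 1) ⊆ D ∨ gam vv (sg3 k 2) (sg3 k 3) ⊆ D) (x : E) :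
    TA D x ∨ TA D (-x) := by
  by_cases hx : x = 0
  · left
    rw [hx]
    exact TA_zero hv
  · have hC : ∀ (k : Fin 3) (y : E), y ∈ Cn SqR → TA D (fr k y) ∨ TA D (-fr k y) := by
      intro k y hy
      have e := cn_eq hy.1
      have h := cov_sq hv k (hk k) hy.2
      rw [e, map_smul]
      rcases h with h | h
      · left
        exact TA_smul hy.1.le h
      · right
        rw [← smul_neg]
        exact TA_smul hy.1.le h
    rcases cover2 hx with ⟨k, hk'⟩ | ⟨i, hi⟩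
    · rcases hk' with h | h
      · have := hC k _ h
        rwa [fr_fr] at this
      · have := hC k _ h
        rw [map_neg, fr_fr, neg_neg] at this
        exact this.symm
    · rcases hi with h | h
      · left
        have := TA_tri hv i h
        rwa [gr_gr] at this
      · right
        have := TA_tri hv i h
        rwa [map_neg, gr_gr] at this

end Pool.Agent.MEQ
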