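import Pool.Agent.MEQ.Defs
/-!
MEQ: the edges of a Meissner body have diameter one.
-/
set_option autoImplicit false

open MeasureTheory Set Metric Pool.Agent.MEIS

namespace Pool.Agent.MEQ

/-- three unit vectors with pairwise inner products `1/2` -/
structure Fr (x y z : E) : Prop where
  nx : ‖x‖ = 1
  ny : ‖y‖ = 1
  nz : ‖z‖ = 1
  xy : inner ℝ x y = (1 / 2 : ℝ)
  xz : inner ℝ x z = (1 / 2 : ℝ)
  yz : inner ℝ y z = (1 / 2 : ℝ)

theorem Fr.span {x y z : E} (h : Fr x y z) {r : E} (h1 : inner ℝ x r = (0 : ℝ)) (h2 : inner ℝ y r = (0 : ℝ))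
    (h3 : inner ℝ z r = (0 : ℝ)) : r = 0 := by
  have sx : inner ℝ x x = (1 : ℝ) := by rw [real_inner_self_eq_norm_sq, h.nx]; norm_num
  have sy : inner ℝ y y = (1 : ℝ) := by rw [real_inner_self_eq_norm_sq, h.ny]; norm_num
  have sz : inner ℝ z z = (1 : ℝ) := by rw [real_inner_self_eq_norm_sq, h.nz]; norm_num
  have yx : inner ℝ y x = (1 / 2 : ℝ) := by rw [real_inner_comm]; exact h.xy
  have zx : inner ℝ z x = (1 / 2 : ℝ) := by rw [real_inner_comm]; exact h.xz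
  have zy : inner ℝ z y = (1 / 2 : ℝ) := by rw [real_inner_comm]; exact h.yz
  have li : LinearIndependent ℝ ![x, y, z] := by
    rw [Fintype.linearIndependent_iff]
    intro g hg
    simp only [Fin.sum_univ_three, Matrix.cons_val_zero, Matrix.cons_val_one, Matrix.cons_val] at hg
    have e1 : inner ℝ x (g 0 • x + g 1 • y + g 2 • z) = (0 : ℝ) := by rw [hg, inner_zero_right]
    have e2 : inner ℝ y (g 0 • x + g 1 • y + g 2 • z) = (0 : ℝ) := by rw [hg, inner_zero_right]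
    have e3 : inner ℝ z (g 0 • x + g 1 • y + g 2 • z) = (0 : ℝ) := by rw [hg, inner_zero_right]
    simp only [inner_add_right, real_inner_smul_right, sx, sy, sz, h.xy, h.xz, h.yz, yx, zx, zy] at e1 e2 e3
    have k0 : g 0 = 0 := by linarith
    have k1 : g 1 = 0 := by linarith
    have k2 : g 2 = 0 := by linarith
    intro i
    fin_cases i
    · exact k0
    · exact k1
    · exact k2
  have sp := li.span_eq_top_of_card_eq_finrank' (by simp [E])
  have le : Submodule.span ℝ (Set.range ![x, y, z]) ≤ (Submodule.span ℝ {r})ᗮ := by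
    rw [Submodule.span_le]
    rintro _ ⟨i, rfl⟩
    rw [SetLike.mem_coe, Submodule.mem_orthogonal_singleton_iff_inner_left]
    fin_cases i
    · exact h1
    · exact h2
    · exact h3
  rw [sp] at le
  have := le (Submodule.mem_top : r ∈ ⊤)
  rw [Submodule.mem_orthogonal_singleton_iff_inner_left] at this
  exact inner_self_eq_zero.1 this

theorem Fr.rep {x y z : E} (h : Fr x y z) (w : E) :
    w = ((3 * inner ℝ x w - inner ℝ y w - inner ℝ z w) / 2 : ℝ) • x +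
      ((3 * inner ℝ y w - inner ℝ x w - inner ℝ z w) / 2 : ℝ) • y +
      ((3 * inner ℝ z w - inner ℝ x w - inner ℝ y w) / 2 : ℝ) • z := by
  have sx : inner ℝ x x = (1 : ℝ) := by rw [real_inner_self_eq_norm_sq, h.nx]; norm_num
  have sy : inner ℝ y y = (1 : ℝ) := by rw [real_inner_self_eq_norm_sq, h.ny]; norm_num
  have sz : inner ℝ z z = (1 : ℝ) := by rw [real_inner_self_eq_norm_sq, h.nz]; norm_num
  have yx : inner ℝ y x = (1 / 2 : ℝ) := by rw [real_inner_comm]; exact h.xy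
  have zx : inner ℝ z x = (1 / 2 : ℝ) := by rw [real_inner_comm]; exact h.xz
  have zy : inner ℝ z y = (1 / 2 : ℝ) := by rw [real_inner_comm]; exact h.yz
  refine sub_eq_zero.1 (h.span (r := w - _) ?_ ?_ ?_)
  · simp only [inner_sub_right, inner_add_right, real_inner_smul_right, sx, h.xy, h.xz]
    ring
  · simp only [inner_sub_right, inner_add_right, real_inner_smul_right, sy, yx, h.yz]
    ring
  · simp only [inner_sub_right, inner_add_right, real_inner_smul_right, sz, zx, zy]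
    ring

/-- the inner product of two vectors in the frame -/
theorem Fr.inn {x y z : E} (h : Fr x y z) (u w : E) :
    inner ℝ u w = ((3 * inner ℝ x w - inner ℝ y w - inner ℝ z w) / 2 : ℝ) * inner ℝ x u +
      ((3 * inner ℝ y w - inner ℝ x w - inner ℝ z w) / 2 : ℝ) * inner ℝ y u +
      ((3 * inner ℝ z w - inner ℝ x w - inner ℝ y w) / 2 : ℝ) * inner ℝ z u := by
  have e := congrArg (fun v => inner ℝ u v) (h.rep w)
  simp only [inner_add_right, real_inner_smul_right] at e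
  rw [e, real_inner_comm x u, real_inner_comm y u, real_inner_comm z u]

/-- different arcs at one vertex -/
theorem core1 {x y z u w : E} (h : Fr x y z) (nw : ‖w‖ = 1) (uz : inner ℝ z u = (1 / 2 : ℝ))
    (ux : (1 / 2 : ℝ) ≤ inner ℝ x u) (uy : inner ℝ y u ≤ (1 : ℝ))
    (wy : inner ℝ y w = (1 / 2 : ℝ)) (wx0 : (1 / 2 : ℝ) ≤ inner ℝ x w) (wx1 : inner ℝ x w ≤ (1 : ℝ))
    (wz0 : (1 / 2 : ℝ) ≤ inner ℝ z w) (wz1 : inner ℝ z w ≤ (1 : ℝ)) : (1 / 2 : ℝ) ≤ inner ℝ u w := by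
  have e1 := h.inn w w
  rw [real_inner_self_eq_norm_sq, nw] at e1
  rw [h.inn u w, uz, wy]
  rw [wy] at e1
  set A := (inner ℝ x u : ℝ)
  set B := (inner ℝ y u : ℝ)
  set A' := (inner ℝ x w : ℝ)
  set B' := (inner ℝ z w : ℝ)
  obtain ⟨s, hs⟩ : ∃ s, s = (3 * A' - 1 / 2 - B') / 2 := ⟨_, rfl⟩
  obtain ⟨t, ht⟩ : ∃ t, t = (3 * B' - A' - 1 / 2) / 2 := ⟨_, rfl⟩
  have s0 : 0 ≤ s := by rw [hs]; linarith
  have t0 : 0 ≤ t := by rw [ht]; linarith
  have q : s ^ 2 + t ^ 2 + 2 / 3 * s * t = 1 := by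
    rw [hs, ht]
    nlinarith [e1]
  have st : 1 ≤ s + t := by
    by_contra hc
    push Not at hc
    nlinarith [mul_nonneg s0 t0]
  have m : (3 * (1 / 2) - A' - B') / 2 = (1 - s - t) / 2 := by
    rw [hs, ht]
    ring
  rw [← hs, ← ht, m]
  nlinarith [mul_nonneg s0 (sub_nonneg.2 ux), mul_nonneg (sub_nonneg.2 st) (sub_nonneg.2 uy)]

/-- two points of one arc -/
theorem core2 {x y z u w : E} (h : Fr x y z) (nw : ‖w‖ = 1) (uz : inner ℝ z u = (1 / 2 : ℝ))
    (ux : (1 / 2 : ℝ) ≤ inner ℝ x u) (uy : (1 / 2 : ℝ) ≤ inner ℝ y u)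
    (wz : inner ℝ z w = (1 / 2 : ℝ)) (wx0 : (1 / 2 : ℝ) ≤ inner ℝ x w) (wx1 : inner ℝ x w ≤ (1 : ℝ))
    (wy0 : (1 / 2 : ℝ) ≤ inner ℝ y w) (wy1 : inner ℝ y w ≤ (1 : ℝ)) : (1 / 2 : ℝ) ≤ inner ℝ u w := by
  have e1 := h.inn w w
  rw [real_inner_self_eq_norm_sq, nw] at e1
  rw [h.inn u w, uz, wz]
  rw [wz] at e1
  set A := (inner ℝ x u : ℝ)
  set B := (inner ℝ y u : ℝ)
  set A' := (inner ℝ x w : ℝ)
  set B' := (inner ℝ y w : ℝ)
  obtain ⟨s, hs⟩ : ∃ s, s = (3 * A' - B' - 1 / 2) / 2 := ⟨_, rfl⟩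
  obtain ⟨t, ht⟩ : ∃ t, t = (3 * B' - A' - 1 / 2) / 2 := ⟨_, rfl⟩
  have s0 : 0 ≤ s := by rw [hs]; linarith
  have t0 : 0 ≤ t := by rw [ht]; linarith
  have q : s ^ 2 + t ^ 2 + 2 / 3 * s * t = 1 := by
    rw [hs, ht]
    nlinarith [e1]
  have st : 1 ≤ s + t := by
    by_contra hc
    push Not at hc
    nlinarith [mul_nonneg s0 t0]
  have m : (3 * (1 / 2) - A' - B') / 2 = (1 - s - t) / 2 := by
    rw [hs, ht]
    ring
  rw [← hs, ← ht, m]
  nlinarith [mul_nonneg s0 (sub_nonneg.2 ux), mul_nonneg t0 (sub_nonneg.2 uy)]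

theorem Reg.fr {a : Fin 4 → E} (ha : Reg a) {i j k l : Fin 4} (hij : i ≠ j) (hik : i ≠ k) (hjk : j ≠ k)
    (hil : i ≠ l) (hjl : j ≠ l) (hkl : k ≠ l) : Fr (a i - a l) (a j - a l) (a k - a l) := by
  have key : ∀ p q : Fin 4, p ≠ q → p ≠ l → q ≠ l → inner ℝ (a p - a l) (a q - a l) = (1 / 2 : ℝ) := by
    intro p q h1 h2 h3
    have e : a p - a q = (a p - a l) - (a q - a l) := by abel
    have n := @norm_sub_sq_real E _ _ (a p - a l) (a q - a l)
    rw [← e, ha p q h1, ha p l h2, ha q l h3] at n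
    linarith
  exact ⟨ha i l hil, ha j l hjl, ha k l hkl, key i j hij hil hjl, key i k hik hil hkl, key j k hjk hjl hkl⟩

private theorem inn_ge {b c p : E} (h1 : ‖b - c‖ = 1) (h2 : ‖p - c‖ = 1) (h3 : ‖p - b‖ ≤ 1) :
    (1 / 2 : ℝ) ≤ inner ℝ (b - c) (p - c) := by
  have e : p - b = (p - c) - (b - c) := by abel
  have n := @norm_sub_sq_real E _ _ (p - c) (b - c)
  rw [← e, h2, h1, real_inner_comm] at n
  nlinarith [norm_nonneg (p - b)]

private theorem inn_eq {b c p : E} (h1 : ‖b - c‖ = 1) (h2 : ‖p - c‖ = 1) (h3 : ‖p - b‖ = 1) :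
    inner ℝ (b - c) (p - c) = (1 / 2 : ℝ) := by
  have e : p - b = (p - c) - (b - c) := by abel
  have n := @norm_sub_sq_real E _ _ (p - c) (b - c)
  rw [← e, h2, h1, h3, real_inner_comm] at n
  linarith

private theorem inn_le {b c p : E} (h1 : ‖b - c‖ = 1) (h2 : ‖p - c‖ = 1) :
    inner ℝ (b - c) (p - c) ≤ (1 : ℝ) := by
  have := real_inner_le_norm (b - c) (p - c)
  rw [h1, h2] at this
  linarith

private theorem fourth {i j k : Fin 4} (_hij : i ≠ j) (_hik : i ≠ k) (_hjk : j ≠ k) :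
    ∃ l : Fin 4, i ≠ l ∧ j ≠ l ∧ k ≠ l := by
  revert i j k
  decide

private theorem third {i j : Fin 4} (_hij : i ≠ j) : ∃ k : Fin 4, i ≠ k ∧ j ≠ k := by
  revert i j
  decide

private theorem dist_le {u w : E} (hu : ‖u‖ = 1) (hw : ‖w‖ = 1) (h : (1 / 2 : ℝ) ≤ inner ℝ u w) : ‖u - w‖ ≤ 1 := by
  have n := @norm_sub_sq_real E _ _ u w
  rw [hu, hw] at n
  nlinarith [norm_nonneg (u - w)]

theorem gam_symm (a : Fin 4 → E) (i j : Fin 4) : gam a i j = gam a j i := by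
  ext x
  constructor
  · rintro ⟨h1, h2⟩
    exact ⟨h1, fun k hk hk' => h2 k hk' hk⟩
  · rintro ⟨h1, h2⟩
    exact ⟨h1, fun k hk hk' => h2 k hk' hk⟩

/-- points of two different arcs with a common end -/
theorem gam_gam {a : Fin 4 → E} (ha : Reg a) {i j k : Fin 4} (hij : i ≠ j) (hik : i ≠ k) (hjk : j ≠ k) {p q : E}
    (hp : p ∈ gam a i j) (hq : q ∈ gam a i k) : ‖p - q‖ ≤ 1 := by
  obtain ⟨l, hil, hjl, hkl⟩ := fourth hij hik hjk
  obtain ⟨p1, p2⟩ := hp
  obtain ⟨q1, q2⟩ := hq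
  have fr := ha.fr hij hik hjk hil hjl hkl
  have pl := p2 l hil.symm hjl.symm
  have pk := p2 k hik.symm hjk.symm
  have ql := q2 l hil.symm hkl.symm
  have qj := q2 j hij.symm hjk
  have c := core1 (u := p - a l) (w := q - a l) fr ql (inn_eq (ha k l hkl) pl pk) (inn_ge (ha i l hil) pl (p1 i))
    (inn_le (ha j l hjl) pl) (inn_eq (ha j l hjl) ql qj) (inn_ge (ha i l hil) ql (q1 i)) (inn_le (ha i l hil) ql)
    (inn_ge (ha k l hkl) ql (q1 k)) (inn_le (ha k l hkl) ql)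
  have := dist_le pl ql c
  rwa [sub_sub_sub_cancel_right] at this

/-- two points of one arc -/
theorem gam_self {a : Fin 4 → E} (ha : Reg a) {i j : Fin 4} (hij : i ≠ j) {p q : E}
    (hp : p ∈ gam a i j) (hq : q ∈ gam a i j) : ‖p - q‖ ≤ 1 := by
  obtain ⟨k, hik, hjk⟩ := third hij
  obtain ⟨l, hil, hjl, hkl⟩ := fourth hij hik hjk
  obtain ⟨p1, p2⟩ := hp
  obtain ⟨q1, q2⟩ := hq
  have fr := ha.fr hij hik hjk hil hjl hkl
  have pl := p2 l hil.symm hjl.symm
  have pk := p2 k hik.symm hjk.symm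
  have ql := q2 l hil.symm hjl.symm
  have qk := q2 k hik.symm hjk.symm
  have c := core2 (u := p - a l) (w := q - a l) fr ql (inn_eq (ha k l hkl) pl pk) (inn_ge (ha i l hil) pl (p1 i))
    (inn_ge (ha j l hjl) pl (p1 j)) (inn_eq (ha k l hkl) ql qk) (inn_ge (ha i l hil) ql (q1 i)) (inn_le (ha i l hil) ql)
    (inn_ge (ha j l hjl) ql (q1 j)) (inn_le (ha j l hjl) ql)
  have := dist_le pl ql c
  rwa [sub_sub_sub_cancel_right] at this

/-- vertices and sharp edges have diameter one -/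
theorem DS_diam {a : Fin 4 → E} {e : Fin 4 → Fin 4 → Prop} (ha : Reg a)
    (hop : ∀ i j k l : Fin 4, i ≠ j → k ≠ l → i ≠ k → i ≠ l → j ≠ k → j ≠ l → e i j → ¬ e k l) :
    ∀ p ∈ DS a e, ∀ q ∈ DS a e, ‖p - q‖ ≤ 1 := by
  rintro p (⟨i, rfl⟩ | ⟨i, j, hij, he, hp⟩) q (⟨k, rfl⟩ | ⟨k, l, hkl, he', hq⟩)
  · by_cases h : i = k
    · rw [h, sub_self, norm_zero]
      norm_num
    · exact (ha i k h).le
  · rw [norm_sub_rev]
    exact hq.1 i
  · exact hp.1 k
  · by_cases h1 : i = k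
    · subst h1
      by_cases h2 : j = l
      · subst h2
        exact gam_self ha hij hp hq
      · exact gam_gam ha hij hkl h2 hp hq
    by_cases h2 : i = l
    · subst h2
      rw [gam_symm] at hq
      by_cases h3 : j = k
      · subst h3
        exact gam_self ha hij hp hq
      · exact gam_gam ha hij h1 h3 hp hq
    by_cases h3 : j = k
    · subst h3
      rw [gam_symm] at hp
      exact gam_gam ha hij.symm hkl h2 hp hq
    by_cases h4 : j = l
    · subst h4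
      rw [gam_symm] at hp hq
      exact gam_gam ha hij.symm hkl.symm h1 hp hq
    · exact absurd he' (hop i j k l hij hkl h1 h2 h3 h4 he)

theorem DS_diamV {a : Fin 4 → E} (ha : Reg a) (v : Fin 4) : ∀ p ∈ DS a (eV v), ∀ q ∈ DS a (eV v), ‖p - q‖ ≤ 1 := by
  refine DS_diam ha ?_
  unfold eV
  revert v
  decide

theorem DS_diamF {a : Fin 4 → E} (ha : Reg a) (v : Fin 4) : ∀ p ∈ DS a (eF v), ∀ q ∈ DS a (eF v), ‖p - q‖ ≤ 1 := by
  refine DS_diam ha ?_
  unfold eF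
  revert v
  decide

end Pool.Agent.MEQ
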