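import Pool.Agent.MGF.FIN3
/-!
MEQ: the equality case of the theorem on bodies of constant width of least volume (MP_8bdc10_gt).
Definitions.
-/
set_option autoImplicit false

open MeasureTheory Set Metric Pool.Agent.MEIS Pool.Agent.MSQ Pool.Agent.MGE Pool.Agent.MGF

namespace Pool.Agent.MEQ

noncomputable section

/-- volume of the Meissner bodies -/
def VM : ℝ := (2 / 3 - √3 / 4 * Real.arccos (1 / 3)) * Real.pi

/-- `a` is a regular tetrahedron of edge one -/
def Reg (a : Fin 4 → E) : Prop := ∀ i j, i ≠ j → ‖a i - a j‖ = 1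

/-- the Reuleaux tetrahedron: intersection of the four unit balls about the vertices -/
def RT (a : Fin 4 → E) : Set E := {x | ∀ i, ‖x - a i‖ ≤ 1}

/-- the arc `γ_ij`: points of `RT a` at distance one from the two other vertices -/
def gam (a : Fin 4 → E) (i j : Fin 4) : Set E := {x | x ∈ RT a ∧ ∀ k, k ≠ i → k ≠ j → ‖x - a k‖ = 1}

/-- the Meissner body with the sharp edges `i j` for which `e i j` -/
def MB (a : Fin 4 → E) (e : Fin 4 → Fin 4 → Prop) : Set E :=
  {y | y ∈ RT a ∧ ∀ i j, i ≠ j → e i j → ∀ x ∈ gam a i j, ‖y - x‖ ≤ 1}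

/-- first type: the three edges at the vertex `v` are rounded, the other three are sharp -/
def eV (v i j : Fin 4) : Prop := i ≠ v ∧ j ≠ v
/-- second type: the three edges of the face opposite to `v` are rounded, the edges at `v` are sharp -/
def eF (v i j : Fin 4) : Prop := i = v ∨ j = v

/-- vertices and sharp edges -/
def DS (a : Fin 4 → E) (e : Fin 4 → Fin 4 → Prop) : Set E :=
  {x | (∃ i, x = a i) ∨ ∃ i j, i ≠ j ∧ e i j ∧ x ∈ gam a i j}

/-- `M` is a Meissner body (of constant width one) -/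
def IsMeissner (M : Set E) : Prop := ∃ a : Fin 4 → E, Reg a ∧ ∃ v, M = MB a (eV v) ∨ M = MB a (eF v)

/-- a cell certificate with slack `c` is available for largest central defect `m` -/
def HasCellS (c m : ℝ) : Prop :=
  (∃ (F : ℝ → ℝ → ℝ → ℝ → ℝ) (KN Kp KS be bb : ℝ),
      Cell F KN Kp KS be bb ∧ 0 ≤ KN ∧ be ≤ m ∧ m ≤ bb ∧ 3 * KN + 3 * KS + c ≤ Kp) ∨
  (∃ (Fb Fs : ℝ → ℝ → ℝ → ℝ → ℝ) (KN Kp KS be bb bs : ℝ),
      Cell2 Fb Fs KN Kp KS be bb bs ∧ be ≤ m ∧ m ≤ bb ∧ (m ≤ bs ∨ 143 / 1000 - m ≤ bs) ∧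
        3 * KN + 3 * KS + c ≤ Kp)

end

end Pool.Agent.MEQ
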