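import Pool.Agent.MEQ.Lim
import Pool.Agent.MGE.FRM
import Pool.Agent.MGE.ISO
/-!
Fin2. A body of constant width one that contains the vertices of a regular tetrahedron of edge one and has volume
at most `VM` is a Meissner body.
-/
set_option autoImplicit false

open MeasureTheory Set Metric Pool.Agent.MEIS Pool.Agent.MSQ Pool.Agent.MGE Pool.Agent.MGF

namespace Pool.Agent.MEQ

private theorem fin2_ball {C : Set E} (h : CW C) (hv : ∀ i, vv i ∈ C) :
    C ⊆ closedBall (0 : E) (4 / 5) := by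
  intro x hx
  rw [mem_closedBall_zero_iff]
  have hi : ∀ i, ‖x‖ ^ 2 - 2 * inner ℝ x (vv i) + 3 / 8 ≤ 1 := by
    intro i
    have h1 := CW_dist h hx (hv i)
    have h2 : ‖x - vv i‖ ^ 2 = ‖x‖ ^ 2 - 2 * inner ℝ x (vv i) + ‖vv i‖ ^ 2 := by
      rw [@norm_sub_sq_real]
    have h3 : ‖x - vv i‖ ^ 2 ≤ 1 := by
      have := norm_nonneg (x - vv i)
      nlinarith
    rw [h2, vv_norm_sq] at h3
    exact h3
  have hs : inner ℝ x (vv 0) + inner ℝ x (vv 1) + inner ℝ x (vv 2) + inner ℝ x (vv 3) = (0 : ℝ) := by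
    rw [← inner_add_right, ← inner_add_right, ← inner_add_right, vv_sum, inner_zero_right]
  have h0 := hi 0
  have h1 := hi 1
  have h2 := hi 2
  have h3 := hi 3
  have hq : ‖x‖ ^ 2 ≤ (4 / 5 : ℝ) ^ 2 := by nlinarith
  exact le_of_sq_le_sq hq (by norm_num)

theorem MB_eq (a : Fin 4 → E) (e : Fin 4 → Fin 4 → Prop) : MB a e = UB (DS a e) := by
  ext y
  constructor
  · rintro ⟨h1, h2⟩ q hq
    rcases hq with ⟨i, rfl⟩ | ⟨i, j, hij, he, hq⟩
    · exact h1 i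
    · exact h2 i j hij he q hq
  · intro h
    exact ⟨fun i => h _ (Or.inl ⟨i, rfl⟩), fun i j hij he x hx => h x (Or.inr ⟨i, j, hij, he, hx⟩)⟩

/-- the arcs in the body -/
theorem arcs_in {C : Set E} (h : CW C) (hv : ∀ i, vv i ∈ C) (hvol : volume C ≤ ENNReal.ofReal VM) (k : Fin 3) :
    gam vv (sg3 k 0) (sg3 k 1) ⊆ C ∨ gam vv (sg3 k 2) (sg3 k 3) ⊆ C := by
  have hb := fin2_ball h hv
  have hS : SH (supp C) (4 / 5) := supp_SH h hb
  have hB : Body (supp C) = C := body_supp h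
  have hH : ∀ (i : Fin 4) (x : E), inner ℝ x (vv i) ≤ supp C x := by
    intro i x
    rw [real_inner_comm]
    exact sup_le h.cpt x (hv i)
  have hvol' : volume (Body (supp C)) ≤ ENNReal.ofReal VM := by rw [hB]; exact hvol
  rcases lim_core hS hH hvol' k with hc | hc
  · left
    have := arc_frame hS (fr k) (sg3 k) (fr_sg k) (sg3_surj k) hc
    rwa [hB] at this
  · right
    obtain ⟨ψ, hψ, hψv⟩ := exists_swE
    have hs : Function.Surjective (fun i => sg3 k (![3, 2, 1, 0] i)) :=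
      (sg3_surj k).comp (by decide)
    have hc' : CoreEq fun x => supp C ((ψ.trans (fr k)) x) := by
      have e : (fun x => supp C ((ψ.trans (fr k)) x)) = fun x => supp C (fr k (swE x)) := by
        funext x
        rw [← hψ]
        rfl
      rw [e]
      exact hc
    have := arc_frame hS (ψ.trans (fr k)) (fun i => sg3 k (![3, 2, 1, 0] i))
      (fun i => by
        show fr k (ψ (vv i)) = _
        rw [hψv, fr_sg]) hs hc'
    rw [hB] at this
    have h2 : gam vv (sg3 k 3) (sg3 k 2) ⊆ C := this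
    rwa [gam_symm] at h2

private theorem fin2_e {C : Set E} (h : CW C) (hv : ∀ i, vv i ∈ C) (e : Fin 4 → Fin 4 → Prop)
    (he : ∀ i j, i ≠ j → e i j → gam vv i j ⊆ C)
    (hk : ∀ k : Fin 3, e (sg3 k 0) (sg3 k 1) ∨ e (sg3 k 2) (sg3 k 3)) : C = MB vv e := by
  have hD : DS vv e ⊆ C := by
    rintro x (⟨i, rfl⟩ | ⟨i, j, hij, h1, h2⟩)
    · exact hv i
    · exact he i j hij h1 h2
  rw [MB_eq]
  refine key_body h hD (cov_all (fun i => Or.inl ⟨i, rfl⟩) fun k => ?_)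
  have h01 : sg3 k 0 ≠ sg3 k 1 := by revert k; decide
  have h23 : sg3 k 2 ≠ sg3 k 3 := by revert k; decide
  rcases hk k with h1 | h1
  · exact Or.inl fun x hx => Or.inr ⟨_, _, h01, h1, hx⟩
  · exact Or.inr fun x hx => Or.inr ⟨_, _, h23, h1, hx⟩

private theorem fin2_case {C : Set E} (e : Fin 4 → Fin 4 → Prop)
    {a b c d f g : Fin 4} (h1 : gam vv a b ⊆ C) (h2 : gam vv c d ⊆ C) (h3 : gam vv f g ⊆ C)
    (hall : ∀ i j, i ≠ j → e i j → (i = a ∧ j = b) ∨ (i = b ∧ j = a) ∨ (i = c ∧ j = d) ∨ (i = d ∧ j = c) ∨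
      (i = f ∧ j = g) ∨ (i = g ∧ j = f)) : ∀ i j, i ≠ j → e i j → gam vv i j ⊆ C := by
  intro i j hij hij2
  rcases hall i j hij hij2 with ⟨rfl, rfl⟩ | ⟨rfl, rfl⟩ | ⟨rfl, rfl⟩ | ⟨rfl, rfl⟩ | ⟨rfl, rfl⟩ | ⟨rfl, rfl⟩
  · exact h1
  · rw [gam_symm]; exact h1
  · exact h2
  · rw [gam_symm]; exact h2
  · exact h3
  · rw [gam_symm]; exact h3

instance (v i j : Fin 4) : Decidable (eV v i j) := by unfold eV; infer_instance
instance (v i j : Fin 4) : Decidable (eF v i j) := by unfold eF; infer_instance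

theorem eV_symm (v i j : Fin 4) : eV v i j → eV v j i := fun h => ⟨h.2, h.1⟩
theorem eF_symm (v i j : Fin 4) : eF v i j → eF v j i := fun h => h.symm

theorem exact_eq {C : Set E} (h : CW C) (hv : ∀ i, vv i ∈ C) (hvol : volume C ≤ ENNReal.ofReal VM) :
    ∃ v, C = MB vv (eV v) ∨ C = MB vv (eF v) := by
  have a0 : gam vv 0 1 ⊆ C ∨ gam vv 2 3 ⊆ C := arcs_in h hv hvol 0
  have a1 : gam vv 0 2 ⊆ C ∨ gam vv 1 3 ⊆ C := arcs_in h hv hvol 1
  have a2 : gam vv 0 3 ⊆ C ∨ gam vv 2 1 ⊆ C := arcs_in h hv hvol 2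
  rcases a0 with a0 | a0 <;> rcases a1 with a1 | a1 <;> rcases a2 with a2 | a2
  · exact ⟨0, Or.inr (fin2_e h hv (eF 0) (fin2_case (eF 0) a0 a1 a2 (by decide)) (by decide))⟩
  · exact ⟨3, Or.inl (fin2_e h hv (eV 3) (fin2_case (eV 3) a0 a1 a2 (by decide)) (by decide))⟩
  · exact ⟨2, Or.inl (fin2_e h hv (eV 2) (fin2_case (eV 2) a0 a1 a2 (by decide)) (by decide))⟩
  · exact ⟨1, Or.inr (fin2_e h hv (eF 1) (fin2_case (eF 1) a0 a1 a2 (by decide)) (by decide))⟩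
  · exact ⟨1, Or.inl (fin2_e h hv (eV 1) (fin2_case (eV 1) a0 a1 a2 (by decide)) (by decide))⟩
  · exact ⟨2, Or.inr (fin2_e h hv (eF 2) (fin2_case (eF 2) a0 a1 a2 (by decide)) (by decide))⟩
  · exact ⟨3, Or.inr (fin2_e h hv (eF 3) (fin2_case (eF 3) a0 a1 a2 (by decide)) (by decide))⟩
  · exact ⟨0, Or.inl (fin2_e h hv (eV 0) (fin2_case (eV 0) a0 a1 a2 (by decide)) (by decide))⟩

theorem gam_iff {a : Fin 4 → E} {o : E} {φ : E ≃ₗᵢ[ℝ] E} (hφ : ∀ i, φ (a i - o) = vv i) (i j : Fin 4) (x : E) :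
    φ (x - o) ∈ gam vv i j ↔ x ∈ gam a i j := by
  have e : ∀ m, ‖φ (x - o) - vv m‖ = ‖x - a m‖ := fun m => by
    rw [← hφ m, ← map_sub, φ.norm_map]
    congr 1
    abel
  constructor
  · rintro ⟨h1, h2⟩
    exact ⟨fun m => by rw [← e m]; exact h1 m, fun m q1 q2 => by rw [← e m]; exact h2 m q1 q2⟩
  · rintro ⟨h1, h2⟩
    exact ⟨fun m => by rw [e m]; exact h1 m, fun m q1 q2 => by rw [e m]; exact h2 m q1 q2⟩

theorem MB_iff {a : Fin 4 → E} {o : E} {φ : E ≃ₗᵢ[ℝ] E} (hφ : ∀ i, φ (a i - o) = vv i)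
    (e : Fin 4 → Fin 4 → Prop) (y : E) : φ (y - o) ∈ MB vv e ↔ y ∈ MB a e := by
  have e1 : ∀ m, ‖φ (y - o) - vv m‖ = ‖y - a m‖ := fun m => by
    rw [← hφ m, ← map_sub, φ.norm_map]
    congr 1
    abel
  have e2 : ∀ x, ‖φ (y - o) - φ (x - o)‖ = ‖y - x‖ := fun x => by
    rw [← map_sub, φ.norm_map]
    congr 1
    abel
  constructor
  · rintro ⟨h1, h2⟩
    refine ⟨fun m => by rw [← e1 m]; exact h1 m, fun i j hij he x hx => ?_⟩
    rw [← e2 x]
    exact h2 i j hij he _ ((gam_iff hφ i j x).2 hx)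
  · rintro ⟨h1, h2⟩
    refine ⟨fun m => by rw [e1 m]; exact h1 m, fun i j hij he x hx => ?_⟩
    have hx2 : φ ((φ.symm x + o) - o) = x := by simp
    rw [← hx2, e2]
    refine h2 i j hij he _ ((gam_iff hφ i j _).1 ?_)
    rw [hx2]
    exact hx

/-- equality in the exact case -/
theorem exact_eq_gen {C : Set E} (h : CW C) {a : Fin 4 → E} (ha : Reg a) (hp : ∀ i, a i ∈ C)
    (hvol : volume C ≤ ENNReal.ofReal VM) : ∃ v, C = MB a (eV v) ∨ C = MB a (eF v) := by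
  obtain ⟨o, φ, hφ⟩ := exists_frame (p := a) (fun i j hij => by rw [dist_eq_norm]; exact ha i j hij)
  have h1 : CW ((fun x => x - o) '' C) := CW_translate h o
  have h2 : CW (φ '' ((fun x => x - o) '' C)) := CW_iso h1 φ
  have h3 : ∀ i, vv i ∈ φ '' ((fun x => x - o) '' C) := fun i =>
    ⟨a i - o, ⟨a i, hp i, rfl⟩, hφ i⟩
  have h4 : volume (φ '' ((fun x => x - o) '' C)) ≤ ENNReal.ofReal VM := by
    rw [volume_iso _ h1.cpt.measurableSet φ, volume_translate]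
    exact hvol
  have key : ∀ e, φ '' ((fun x => x - o) '' C) = MB vv e → C = MB a e := by
    intro e he
    ext y
    rw [← MB_iff hφ e y, ← he]
    constructor
    · intro hy
      exact ⟨y - o, ⟨y, hy, rfl⟩, rfl⟩
    · rintro ⟨_, ⟨z, hz, rfl⟩, h5⟩
      have h6 := φ.injective h5
      have h7 : z = y := sub_left_injective h6
      rw [← h7]
      exact hz
  obtain ⟨v, hv | hv⟩ := exact_eq h2 h3 h4
  · exact ⟨v, Or.inl (key _ hv)⟩
  · exact ⟨v, Or.inr (key _ hv)⟩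

end Pool.Agent.MEQ
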