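import Pool.Agent.MEIS.SUP
import Pool.Agent.MEIS.HBA
import Pool.Agent.MEIS.TRN
/-!
Geo. A body of constant width one that contains a set `D` such that every direction is, up to sign, a
nonnegative combination of unit chords of `D` at a common point, is the intersection of the unit balls about
the points of `D`.
-/
set_option autoImplicit false

open MeasureTheory Set Metric Pool.Agent.MEIS

namespace Pool.Agent.MEQ

/-- `x` is a nonnegative combination of unit chords `p - q` of `D` ending at a common point `p` -/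
def TA (D : Set E) (x : E) : Prop :=
  ∃ p ∈ D, ∃ q1 ∈ D, ∃ q2 ∈ D, ∃ q3 ∈ D, ∃ l1 l2 l3 : ℝ, 0 ≤ l1 ∧ 0 ≤ l2 ∧ 0 ≤ l3 ∧
    ‖p - q1‖ = 1 ∧ ‖p - q2‖ = 1 ∧ ‖p - q3‖ = 1 ∧
    x = l1 • (p - q1) + l2 • (p - q2) + l3 • (p - q3)

/-- intersection of the unit balls about the points of `D` -/
def UB (D : Set E) : Set E := {y | ∀ q ∈ D, ‖y - q‖ ≤ 1}

theorem TA_mono {D D' : Set E} (h : D ⊆ D') {x : E} (hx : TA D x) : TA D' x := by
  obtain ⟨p, hp, q1, h1, q2, h2, q3, h3, r⟩ := hx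
  exact ⟨p, h hp, q1, h h1, q2, h h2, q3, h h3, r⟩

theorem TA_smul {D : Set E} {x : E} {t : ℝ} (ht : 0 ≤ t) (hx : TA D x) : TA D (t • x) := by
  obtain ⟨p, hp, q1, h1, q2, h2, q3, h3, l1, l2, l3, g1, g2, g3, n1, n2, n3, e⟩ := hx
  refine ⟨p, hp, q1, h1, q2, h2, q3, h3, t * l1, t * l2, t * l3, mul_nonneg ht g1, mul_nonneg ht g2,
    mul_nonneg ht g3, n1, n2, n3, ?_⟩
  rw [e]
  module

theorem TA_map {D : Set E} {x : E} (φ : E ≃ₗᵢ[ℝ] E) (hx : TA D x) : TA (φ '' D) (φ x) := by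
  obtain ⟨p, hp, q1, h1, q2, h2, q3, h3, l1, l2, l3, g1, g2, g3, n1, n2, n3, e⟩ := hx
  refine ⟨φ p, ⟨p, hp, rfl⟩, φ q1, ⟨q1, h1, rfl⟩, φ q2, ⟨q2, h2, rfl⟩, φ q3, ⟨q3, h3, rfl⟩, l1, l2, l3, g1, g2,
    g3, ?_, ?_, ?_, ?_⟩
  · rw [← map_sub, φ.norm_map, n1]
  · rw [← map_sub, φ.norm_map, n2]
  · rw [← map_sub, φ.norm_map, n3]
  · rw [e]
    simp only [map_add, map_smul, map_sub]

private theorem geo_ineq {p q y : E} (h : ‖p - q‖ = 1) (hy : ‖y - q‖ ≤ 1) :
    inner ℝ (p - q) (y - p) ≤ (0 : ℝ) := by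
  have e : y - q = (y - p) + (p - q) := by abel
  have h1 : ‖y - q‖ ^ 2 = ‖y - p‖ ^ 2 + 2 * inner ℝ (y - p) (p - q) + ‖p - q‖ ^ 2 := by
    rw [e, @norm_add_sq_real]
  have h2 : ‖y - q‖ ^ 2 ≤ 1 := by
    have := norm_nonneg (y - q)
    nlinarith
  rw [h] at h1
  rw [real_inner_comm]
  nlinarith [sq_nonneg ‖y - p‖]

/-- in direction `x` of type `TA` at `p`, every point of `UB D` is below `p` -/
private theorem geo_below {D : Set E} {p q1 q2 q3 y : E} {l1 l2 l3 : ℝ} (h1 : q1 ∈ D) (h2 : q2 ∈ D)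
    (h3 : q3 ∈ D) (g1 : 0 ≤ l1) (g2 : 0 ≤ l2) (g3 : 0 ≤ l3) (n1 : ‖p - q1‖ = 1) (n2 : ‖p - q2‖ = 1)
    (n3 : ‖p - q3‖ = 1) (hy : y ∈ UB D) :
    inner ℝ (l1 • (p - q1) + l2 • (p - q2) + l3 • (p - q3)) (y - p) ≤ (0 : ℝ) := by
  have a1 := geo_ineq n1 (hy q1 h1)
  have a2 := geo_ineq n2 (hy q2 h2)
  have a3 := geo_ineq n3 (hy q3 h3)
  rw [inner_add_left, inner_add_left, real_inner_smul_left, real_inner_smul_left, real_inner_smul_left]
  have b1 := mul_nonpos_of_nonneg_of_nonpos g1 a1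
  have b2 := mul_nonpos_of_nonneg_of_nonpos g2 a2
  have b3 := mul_nonpos_of_nonneg_of_nonpos g3 a3
  linarith

private theorem geo_chord {K : Set E} (hK : CW K) {R : ℝ} (hR : SH (supp K) R) {p q : E} (hq : q ∈ K)
    (h : ‖p - q‖ = 1) : supp K (p - q) ≤ inner ℝ (p - q) p := by
  have h1 := hR.wid (p - q)
  have h2 := sup_le hK.cpt (-(p - q)) hq
  rw [inner_neg_right] at h2
  have h3 : (inner ℝ (p - q) p : ℝ) = inner ℝ q (p - q) + 1 := by
    have : (inner ℝ (p - q) (p - q) : ℝ) = 1 := by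
      rw [real_inner_self_eq_norm_sq, h]
      norm_num
    rw [inner_sub_right, real_inner_comm q (p - q)] at this
    linarith
  rw [h] at h1
  linarith

theorem key_body {K D : Set E} (hK : CW K) (hD : D ⊆ K) (hcov : ∀ x : E, TA D x ∨ TA D (-x)) :
    K = UB D := by
  apply Set.Subset.antisymm
  · intro y hy q hq
    exact CW_dist hK hy (hD hq)
  · intro y hy
    obtain ⟨R, hR⟩ := hK.cpt.isBounded.subset_closedBall (0 : E)
    have hS := supp_SH hK hR
    rw [← body_supp hK]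
    intro x
    rcases hcov x with hx | hx
    · obtain ⟨p, hp, q1, h1, q2, h2, q3, h3, l1, l2, l3, g1, g2, g3, n1, n2, n3, rfl⟩ := hx
      have b := geo_below h1 h2 h3 g1 g2 g3 n1 n2 n3 hy
      have c := sup_le hK.cpt (l1 • (p - q1) + l2 • (p - q2) + l3 • (p - q3)) (hD hp)
      rw [inner_sub_right] at b
      rw [real_inner_comm] at c
      linarith
    · obtain ⟨p, hp, q1, h1, q2, h2, q3, h3, l1, l2, l3, g1, g2, g3, n1, n2, n3, e⟩ := hx
      have c : supp K (-x) ≤ inner ℝ (-x) p := by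
        have s1 : supp K (-x) ≤ l1 * supp K (p - q1) + l2 * supp K (p - q2) + l3 * supp K (p - q3) := by
          rw [e, ← hS.hom l1 g1, ← hS.hom l2 g2, ← hS.hom l3 g3]
          have t1 := hS.sub (l1 • (p - q1) + l2 • (p - q2)) (l3 • (p - q3))
          have t2 := hS.sub (l1 • (p - q1)) (l2 • (p - q2))
          linarith
        have c1 := mul_le_mul_of_nonneg_left (geo_chord hK hS (hD h1) n1) g1
        have c2 := mul_le_mul_of_nonneg_left (geo_chord hK hS (hD h2) n2) g2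
        have c3 := mul_le_mul_of_nonneg_left (geo_chord hK hS (hD h3) n3) g3
        rw [e] at s1
        rw [e, inner_add_left, inner_add_left, real_inner_smul_left, real_inner_smul_left,
          real_inner_smul_left]
        linarith
      have w := hS.wid x
      have d : (inner ℝ x (y - p) : ℝ) ≤ ‖x‖ := by
        have d1 := real_inner_le_norm x (y - p)
        have d2 : ‖y - p‖ ≤ 1 := hy p hp
        have d3 := mul_le_mul_of_nonneg_left d2 (norm_nonneg x)
        linarith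
      rw [inner_neg_left] at c
      rw [inner_sub_right] at d
      linarith

end Pool.Agent.MEQ
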