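import Pool.Agent.MEQ.Qu
import Pool.Agent.MEIS.MOL
import Pool.Agent.MEIS.SCA
import Pool.Agent.MGE.GVO
/-!
Lim. A body of constant width one containing the standard tetrahedron, of volume at most `VM`: in each of the three
pairs of squares the support function is the reference function on one of the two cores.
-/
set_option autoImplicit false

open MeasureTheory Set Metric Pool.Agent.MEIS Pool.Agent.MSQ Pool.Agent.MGE Pool.Agent.MGF

namespace Pool.Agent.MEQ

theorem arccos_le : Real.arccos (1 / 3) ≤ 31 / 25 := by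
  have h1 : (1 / 3 : ℝ) ≤ Real.arcsin (1 / 3) := by
    rw [Real.le_arcsin_iff_sin_le ⟨by linarith [Real.pi_gt_three], by linarith [Real.pi_gt_three]⟩
      ⟨by norm_num, by norm_num⟩]
    exact Real.sin_le (by norm_num)
  have h2 : Real.arccos (1 / 3) = Real.pi / 2 - Real.arcsin (1 / 3) := rfl
  have h3 := Real.pi_lt_d4
  rw [h2]
  linarith

theorem VM_pos : 0 < VM := by
  have h1 := arccos_le
  have h3 : √3 ≤ 18 / 10 := by
    rw [Real.sqrt_le_left (by norm_num)]
    norm_num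
  have h0 : 0 ≤ Real.arccos (1 / 3) := Real.arccos_nonneg _
  have hp := Real.pi_pos
  unfold VM
  apply mul_pos _ hp
  have : √3 / 4 * Real.arccos (1 / 3) ≤ 18 / 10 / 4 * (31 / 25) :=
    mul_le_mul (by linarith) h1 h0 (by norm_num)
  norm_num at this ⊢
  linarith

theorem VM_val : 2 * Real.pi / 3 - 1 / 2 * (6 * Es) = VM := by
  have h3 : (√3 : ℝ) ≠ 0 := by positivity
  have h9 : (√3 : ℝ) ^ 2 = 3 := Real.sq_sqrt (by norm_num)
  unfold Es VM
  have e : Real.pi * Real.arccos (1 / 3) / (4 * √3) = Real.pi * Real.arccos (1 / 3) * √3 / 12 := by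
    rw [div_eq_div_iff (by positivity) (by norm_num)]
    have : Real.pi * Real.arccos (1 / 3) * √3 * (4 * √3) =
      Real.pi * Real.arccos (1 / 3) * 4 * (√3) ^ 2 := by ring
    rw [this, h9]
    ring
  rw [e]
  ring

theorem CU_nonneg (J : Jet) : 0 ≤ CU J := QU_nonneg _
theorem MU_nonneg (G : E → ℝ) : 0 ≤ MU G := le_min (CU_nonneg _) (CU_nonneg _)

theorem swE_P (z : ℝ × ℝ) : swE (P z) = -P (z.2, z.1) := by
  rw [swE, MGE.P, MGE.P, neg_pt]
  simp only [pt0, pt1, pt2]

private theorem lim_norm {z : ℝ × ℝ} (h1 : |z.1| ≤ cc) (h2 : |z.2| ≤ 1) : ‖P z‖ ≤ 2 := by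
  have hc := cc_sq
  rw [norm_P]
  unfold lf
  rw [Real.sqrt_le_left (by norm_num)]
  have a1 : z.1 ^ 2 ≤ cc ^ 2 := by
    rw [← sq_abs]
    exact pow_le_pow_left₀ (abs_nonneg _) h1 2
  have a2 : z.2 ^ 2 ≤ 1 ^ 2 := by
    rw [← sq_abs]
    exact pow_le_pow_left₀ (abs_nonneg _) h2 2
  linarith

/-- the two functions of a pair of squares -/
noncomputable def fA (H : E → ℝ) (k : Fin 3) (z : ℝ × ℝ) : ℝ := H (fr k (P z))
noncomputable def fB (H : E → ℝ) (k : Fin 3) (z : ℝ × ℝ) : ℝ := H (fr k (swE (P z)))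

theorem cont_swE : Continuous swE := by
  obtain ⟨ψ, hψ, -⟩ := exists_swE
  have : swE = ψ := by
    funext x
    exact (hψ x).symm
  rw [this]
  exact ψ.continuous

theorem cont_fA {H : E → ℝ} (hH : Continuous H) (k : Fin 3) : Continuous (fA H k) :=
  hH.comp ((fr k).continuous.comp continuous_P)
theorem cont_fB {H : E → ℝ} (hH : Continuous H) (k : Fin 3) : Continuous (fB H k) :=
  hH.comp ((fr k).continuous.comp (cont_swE.comp continuous_P))

theorem norm_swE (x : E) : ‖swE x‖ = ‖x‖ := by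
  obtain ⟨ψ, hψ, -⟩ := exists_swE
  rw [← hψ, ψ.norm_map]

private theorem lim_sw {G : E → ℝ} {R τ : ℝ} (h : SB G R τ) (k : Fin 3) :
    (jG (fun y => G (fr k y))).sw.f = fB G k := by
  funext z
  show lf z - G (fr k (P (z.2, z.1))) = G (fr k (swE (P z)))
  rw [swE_P, map_neg]
  have h1 := h.wid (fr k (P (z.2, z.1)))
  rw [(fr k).norm_map, norm_P] at h1
  have h2 : lf (z.2, z.1) = lf z := by
    unfold lf
    simp only
    congr 1
    ring
  linarith

private theorem lim_step {H : E → ℝ} (hS : SH H (4 / 5)) (hv : ∀ (i : Fin 4) (x : E), inner ℝ x (vv i) ≤ H x)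
    (hvol : volume (Body H) ≤ ENNReal.ofReal VM) {C c : ℝ} (hc : 0 < c)
    (hK : ∀ (G : E → ℝ) (R τ ε : ℝ), SB G R τ → 0 ≤ τ → 0 < ε → 8 * √ε ≤ 1 → TG G ε →
      SI (ed G) + c * ∑ k : Fin 3, MU (fun y => G (fr k y)) ≤ 6 * Es + C * √ε) (k : Fin 3) {ε : ℝ} (hε : 0 < ε)
    (hε1 : ε < 1 / 64) :
    min (QU (fA H k)) (QU (fB H k)) ≤
      2 * ((C * √ε + 2 * ((1 + 5 * ε) ^ 3 - 1) * VM) / c) + 8 * (2 * ε) ^ 2 := by
  obtain ⟨G, τ, hτ, hG, hGH⟩ := exists_smooth hS (by norm_num) hε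
  have hsq : 8 * √ε ≤ 1 := by
    have h1 : √ε ≤ 1 / 8 := by
      rw [Real.sqrt_le_left (by norm_num)]
      norm_num
      linarith
    linarith
  have hlow : ∀ x, H x - ε * ‖x‖ ≤ G x := by
    intro x
    have h1 := hG.wid x
    have h2 := hGH (-x)
    have h3 := hS.wid x
    rw [norm_neg] at h2
    linarith
  have hTG : TG G ε := by
    intro i x
    have h1 := hlow x
    have h4 := hv i x
    linarith
  have hb := hK G _ τ ε hG hτ.le hε hsq hTG
  have hvg := volume_ge_ed hG hτ (by linarith)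
  have hsc : volume (Body G) ≤ ENNReal.ofReal ((1 + 5 * ε) ^ 3) * volume (Body H) := by
    apply volume_body_scale
    · positivity
    · intro x
      have h1 := hGH x
      have h2 := SH_lower hS x
      nlinarith
  have hr : 2 * Real.pi / 3 - 1 / 2 * SI (ed G) ≤ (1 + 5 * ε) ^ 3 * VM := by
    have h1 : ENNReal.ofReal (2 * Real.pi / 3 - 1 / 2 * SI (ed G)) ≤
        ENNReal.ofReal ((1 + 5 * ε) ^ 3 * VM) := by
      refine hvg.trans (hsc.trans ?_)
      rw [ENNReal.ofReal_mul (by positivity)]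
      exact mul_le_mul_right hvol _
    exact (ENNReal.ofReal_le_ofReal_iff (mul_nonneg (by positivity) VM_pos.le)).1 h1
  have hval := VM_val
  have hM : c * MU (fun y => G (fr k y)) ≤ C * √ε + 2 * ((1 + 5 * ε) ^ 3 - 1) * VM := by
    have h1 : MU (fun y => G (fr k y)) ≤ ∑ k : Fin 3, MU (fun y => G (fr k y)) :=
      Finset.single_le_sum (f := fun k => MU (fun y => G (fr k y))) (fun i _ => MU_nonneg _) (Finset.mem_univ k)
    have h2 := mul_le_mul_of_nonneg_left h1 hc.le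
    linarith
  have hM' : MU (fun y => G (fr k y)) ≤ (C * √ε + 2 * ((1 + 5 * ε) ^ 3 - 1) * VM) / c := by
    rw [le_div_iff₀ hc]
    linarith
  have hMU : MU (fun y => G (fr k y)) = min (QU (fA G k)) (QU (fB G k)) := by
    unfold MU
    rw [CU_eq, CU_eq, lim_sw hG k]
    rfl
  have hGc : Continuous G := by
    have : SH G (4 / 5 + ε) := ⟨hG.hom, fun x y => by
      have h1 := hG.sub x y
      have h2 : 0 ≤ τ * (‖x‖ + ‖y‖ - ‖x + y‖) := mul_nonneg hτ.le (by linarith [norm_add_le x y])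
      linarith, hG.wid, hG.bd⟩
    exact SH_cont this
  have hHc := SH_cont hS
  have hd : ∀ x, |G x - H x| ≤ ε * ‖x‖ := fun x => by
    rw [abs_le]
    have h1 := hGH x
    have h2 := hlow x
    constructor <;> linarith
  have q1 := QU_le (cont_fA hGc k) (cont_fA hHc k) (η := 2 * ε) (fun z h1 h2 => by
    have h3 := hd (fr k (P z))
    rw [(fr k).norm_map] at h3
    have h4 := lim_norm h1 h2
    show |G (fr k (P z)) - H (fr k (P z))| ≤ 2 * ε
    nlinarith)
  have q2 := QU_le (cont_fB hGc k) (cont_fB hHc k) (η := 2 * ε) (fun z h1 h2 => by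
    have h3 := hd (fr k (swE (P z)))
    rw [(fr k).norm_map, norm_swE] at h3
    have h4 := lim_norm h1 h2
    show |G (fr k (swE (P z))) - H (fr k (swE (P z)))| ≤ 2 * ε
    nlinarith)
  rw [hMU] at hM'
  rcases min_choice (QU (fA G k)) (QU (fB G k)) with h | h
  · rw [h] at hM'
    refine (min_le_left _ _).trans ?_
    linarith
  · rw [h] at hM'
    refine (min_le_right _ _).trans ?_
    linarith

theorem lim_core {H : E → ℝ} (hS : SH H (4 / 5)) (hv : ∀ (i : Fin 4) (x : E), inner ℝ x (vv i) ≤ H x)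
    (hvol : volume (Body H) ≤ ENNReal.ofReal VM) (k : Fin 3) :
    CoreEq (fun x => H (fr k x)) ∨ CoreEq (fun x => H (fr k (swE x))) := by
  obtain ⟨C, c, hC, hc, hK⟩ := si_edE
  have hev : ∀ᶠ ε : ℝ in nhdsWithin 0 (Ioi 0), min (QU (fA H k)) (QU (fB H k)) ≤
      2 * ((C * √ε + 2 * ((1 + 5 * ε) ^ 3 - 1) * VM) / c) + 8 * (2 * ε) ^ 2 := by
    filter_upwards [Ioo_mem_nhdsGT (show (0 : ℝ) < 1 / 64 by norm_num)] with ε hε
    exact lim_step hS hv hvol hc hK k hε.1 hε.2
  have hcont : Continuous fun ε : ℝ => 2 * ((C * √ε + 2 * ((1 + 5 * ε) ^ 3 - 1) * VM) / c) +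
      8 * (2 * ε) ^ 2 := by fun_prop
  have hl := (hcont.tendsto 0).mono_left (nhdsWithin_le_nhds (s := Ioi (0 : ℝ)))
  have h0 : min (QU (fA H k)) (QU (fB H k)) ≤ 0 := by
    have := ge_of_tendsto hl hev
    simpa using this
  have hHc := SH_cont hS
  rcases min_choice (QU (fA H k)) (QU (fB H k)) with h | h
  · rw [h] at h0
    exact Or.inl fun X Y hX hY => QU_zero (cont_fA hHc k) h0 hX hY
  · rw [h] at h0
    exact Or.inr fun X Y hX hY => QU_zero (cont_fB hHc k) h0 hX hY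

end Pool.Agent.MEQ
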