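import Pool.Agent.MEQ.Arc
import Pool.Agent.MEQ.ASME
/-!
Qu. The core functional as a functional of the function alone: continuity and the case of value zero.
-/
set_option autoImplicit false

open MeasureTheory Set Metric Pool.Agent.MEIS Pool.Agent.MSQ Pool.Agent.MGE Pool.Agent.MGF

namespace Pool.Agent.MEQ

/-- defect at a chart point, divided by `w` -/
noncomputable def uf (f : ℝ × ℝ → ℝ) (x y : ℝ) : ℝ :=
  (s3 - cc / (2 * wf x)) - f (cc * x, wf x * y / √3) / wf x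

/-- the core functional -/
noncomputable def QU (f : ℝ × ℝ → ℝ) : ℝ :=
  RI 0 1 0 1 (fun x y => uf f x y ^ 2 + uf (fun z => f (z.1, -z.2)) x y ^ 2) +
    RI 0 1 0 1 (fun x y => uf (fun z => f (-z.1, z.2)) x y ^ 2 + uf (fun z => f (-z.1, -z.2)) x y ^ 2)

theorem CU_eq (J : Jet) : CU J = QU J.f := rfl

theorem wf_one (x : ℝ) : 1 ≤ wf x := by
  unfold wf mf
  rw [Real.one_le_sqrt]
  nlinarith [sq_nonneg x]

theorem wf_pos (x : ℝ) : 0 < wf x := lt_of_lt_of_le one_pos (wf_one x)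

theorem cont_wf : Continuous wf := by
  unfold wf mf
  fun_prop

theorem cont_uf {f : ℝ × ℝ → ℝ} (hf : Continuous f) : Continuous fun z : ℝ × ℝ => uf f z.1 z.2 := by
  have hw : Continuous fun z : ℝ × ℝ => wf z.1 := cont_wf.comp continuous_fst
  have hn : ∀ z : ℝ × ℝ, wf z.1 ≠ 0 := fun z => (wf_pos z.1).ne'
  unfold uf
  refine Continuous.sub (continuous_const.sub (continuous_const.div (continuous_const.mul hw) fun z =>
    mul_ne_zero two_ne_zero (hn z))) (Continuous.div ?_ hw hn)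
  refine hf.comp ?_
  exact (continuous_const.mul continuous_fst).prodMk ((hw.mul continuous_snd).div_const _)

theorem cont_uf2 {f g : ℝ × ℝ → ℝ} (hf : Continuous f) (hg : Continuous g) :
    Continuous fun z : ℝ × ℝ => (fun x y => uf f x y ^ 2 + uf g x y ^ 2) z.1 z.2 :=
  ((cont_uf hf).pow 2).add ((cont_uf hg).pow 2)

private theorem qu_chart {x y : ℝ} (hx : 0 ≤ x) (hx1 : x ≤ 1) (hy : 0 ≤ y) (hy1 : y ≤ 1) :
    |cc * x| ≤ cc ∧ |wf x * y / √3| ≤ 1 := by
  have hc := cc_pos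
  have h3 : (0 : ℝ) < √3 := by positivity
  have hw := wf_pos x
  constructor
  · rw [abs_of_nonneg (by positivity)]
    nlinarith
  · rw [abs_of_nonneg (by positivity), div_le_one h3]
    have h1 : wf x ≤ √3 := by
      unfold wf mf
      apply Real.sqrt_le_sqrt
      nlinarith
    nlinarith

private theorem qu_sq {a b η : ℝ} (h : |a - b| ≤ η) : b ^ 2 ≤ 2 * a ^ 2 + 2 * η ^ 2 := by
  have h0 : 0 ≤ η := (abs_nonneg _).trans h
  have h1 : (a - b) ^ 2 ≤ η ^ 2 := by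
    rw [← sq_abs]
    exact pow_le_pow_left₀ (abs_nonneg _) h 2
  nlinarith [sq_nonneg (2 * a - b)]

private theorem qu_uf {f g : ℝ × ℝ → ℝ} {η : ℝ} (h : ∀ z : ℝ × ℝ, |z.1| ≤ cc → |z.2| ≤ 1 → |f z - g z| ≤ η)
    {x y : ℝ} (hx : 0 ≤ x) (hx1 : x ≤ 1) (hy : 0 ≤ y) (hy1 : y ≤ 1) : |uf f x y - uf g x y| ≤ η := by
  obtain ⟨c1, c2⟩ := qu_chart hx hx1 hy hy1
  have h1 := h (cc * x, wf x * y / √3) c1 c2
  have hw := wf_one x
  have e : uf f x y - uf g x y = -((f (cc * x, wf x * y / √3) - g (cc * x, wf x * y / √3)) / wf x) := by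
    unfold uf
    ring
  rw [e, abs_neg, abs_div, abs_of_pos (wf_pos x), div_le_iff₀ (wf_pos x)]
  have h0 : 0 ≤ η := (abs_nonneg _).trans h1
  nlinarith

theorem QU_le {f g : ℝ × ℝ → ℝ} (hf : Continuous f) (hg : Continuous g) {η : ℝ}
    (h : ∀ z : ℝ × ℝ, |z.1| ≤ cc → |z.2| ≤ 1 → |f z - g z| ≤ η) : QU g ≤ 2 * QU f + 8 * η ^ 2 := by
  have hr : ∀ s t : ℝ, (s = 1 ∨ s = -1) → (t = 1 ∨ t = -1) → ∀ z : ℝ × ℝ, |z.1| ≤ cc → |z.2| ≤ 1 →
      |f (s * z.1, t * z.2) - g (s * z.1, t * z.2)| ≤ η := by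
    intro s t hs ht z h1 h2
    apply h
    · rcases hs with rfl | rfl
      · simpa using h1
      · simpa using h1
    · rcases ht with rfl | rfl
      · simpa using h2
      · simpa using h2
  have h00 := h
  have h01 : ∀ z : ℝ × ℝ, |z.1| ≤ cc → |z.2| ≤ 1 → |f (z.1, -z.2) - g (z.1, -z.2)| ≤ η := fun z h1 h2 => by
    have := hr 1 (-1) (Or.inl rfl) (Or.inr rfl) z h1 h2
    simpa using this
  have h10 : ∀ z : ℝ × ℝ, |z.1| ≤ cc → |z.2| ≤ 1 → |f (-z.1, z.2) - g (-z.1, z.2)| ≤ η := fun z h1 h2 => by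
    have := hr (-1) 1 (Or.inr rfl) (Or.inl rfl) z h1 h2
    simpa using this
  have h11 : ∀ z : ℝ × ℝ, |z.1| ≤ cc → |z.2| ≤ 1 → |f (-z.1, -z.2) - g (-z.1, -z.2)| ≤ η := fun z h1 h2 => by
    have := hr (-1) (-1) (Or.inr rfl) (Or.inr rfl) z h1 h2
    simpa using this
  have c01 : Continuous fun z : ℝ × ℝ => ((z.1, -z.2) : ℝ × ℝ) := by fun_prop
  have c10 : Continuous fun z : ℝ × ℝ => ((-z.1, z.2) : ℝ × ℝ) := by fun_prop
  have c11 : Continuous fun z : ℝ × ℝ => ((-z.1, -z.2) : ℝ × ℝ) := by fun_prop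
  have step : ∀ f1 f2 g1 g2 : ℝ × ℝ → ℝ, Continuous f1 → Continuous f2 → Continuous g1 → Continuous g2 →
      (∀ z : ℝ × ℝ, |z.1| ≤ cc → |z.2| ≤ 1 → |f1 z - g1 z| ≤ η) →
      (∀ z : ℝ × ℝ, |z.1| ≤ cc → |z.2| ≤ 1 → |f2 z - g2 z| ≤ η) →
      RI 0 1 0 1 (fun x y => uf g1 x y ^ 2 + uf g2 x y ^ 2) ≤
        2 * RI 0 1 0 1 (fun x y => uf f1 x y ^ 2 + uf f2 x y ^ 2) + 4 * η ^ 2 := by
    intro f1 f2 g1 g2 cf1 cf2 cg1 cg2 e1 e2
    have k := RI_mono 0 1 0 1 zero_le_one zero_le_one (fun x y => uf g1 x y ^ 2 + uf g2 x y ^ 2)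
      (fun x y => (fun x y => 2 * (fun x y => uf f1 x y ^ 2 + uf f2 x y ^ 2) x y) x y +
        (fun _ _ => 4 * η ^ 2) x y) (cont_uf2 cg1 cg2)
      ((continuous_const.mul (cont_uf2 cf1 cf2)).add continuous_const) (fun x y hx hx1 hy hy1 => by
        have a1 := qu_sq (qu_uf e1 hx hx1 hy hy1)
        have a2 := qu_sq (qu_uf e2 hx hx1 hy hy1)
        show uf g1 x y ^ 2 + uf g2 x y ^ 2 ≤ 2 * (uf f1 x y ^ 2 + uf f2 x y ^ 2) + 4 * η ^ 2
        linarith)
    rw [RI_add 0 1 0 1 (fun x y => 2 * (fun x y => uf f1 x y ^ 2 + uf f2 x y ^ 2) x y)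
      (fun _ _ => 4 * η ^ 2) (continuous_const.mul (cont_uf2 cf1 cf2)) continuous_const,
      RI_mul 0 1 0 1 2 (fun x y => uf f1 x y ^ 2 + uf f2 x y ^ 2), RI_const] at k
    linarith
  have s1 := step f (fun z => f (z.1, -z.2)) g (fun z => g (z.1, -z.2)) hf (hf.comp c01) hg (hg.comp c01) h00 h01
  have s2 := step (fun z => f (-z.1, z.2)) (fun z => f (-z.1, -z.2)) (fun z => g (-z.1, z.2))
    (fun z => g (-z.1, -z.2)) (hf.comp c10) (hf.comp c11) (hg.comp c10) (hg.comp c11) h10 h11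
  unfold QU
  linarith

theorem RI_nonneg {f : ℝ → ℝ → ℝ} (hf : ∀ x y, 0 ≤ f x y) : 0 ≤ RI 0 1 0 1 f := by
  unfold RI
  refine intervalIntegral.integral_nonneg zero_le_one fun x _ => ?_
  exact intervalIntegral.integral_nonneg zero_le_one fun y _ => hf x y

theorem QU_nonneg (f : ℝ × ℝ → ℝ) : 0 ≤ QU f := by
  unfold QU
  refine add_nonneg (RI_nonneg fun x y => by positivity) (RI_nonneg fun x y => by positivity)

/-- a nonnegative continuous function with integral zero vanishes -/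
theorem RI_zero {f : ℝ → ℝ → ℝ} (hc : Continuous fun z : ℝ × ℝ => f z.1 z.2) (hf : ∀ x y, 0 ≤ f x y)
    (h : RI 0 1 0 1 f ≤ 0) {x y : ℝ} (hx : 0 ≤ x) (hx1 : x ≤ 1) (hy : 0 ≤ y) (hy1 : y ≤ 1) : f x y = 0 := by
  by_contra hne
  have hpos : 0 < f x y := lt_of_le_of_ne (hf x y) (Ne.symm hne)
  have hin : ∀ x : ℝ, Continuous fun y => f x y := fun x => hc.comp (Continuous.prodMk_right x)
  have h1 : 0 < ∫ y in (0:ℝ)..1, f x y :=
    intervalIntegral.integral_pos one_pos (hin x).continuousOn (fun y _ => hf x y) ⟨y, ⟨hy, hy1⟩, hpos⟩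
  have hI : Continuous fun x => ∫ y in (0:ℝ)..1, f x y :=
    intervalIntegral.continuous_parametric_intervalIntegral_of_continuous' hc 0 1
  have h2 : 0 < ∫ x in (0:ℝ)..1, ∫ y in (0:ℝ)..1, f x y :=
    intervalIntegral.integral_pos one_pos hI.continuousOn
      (fun x _ => intervalIntegral.integral_nonneg zero_le_one fun y _ => hf x y) ⟨x, ⟨hx, hx1⟩, h1⟩
  unfold RI at h
  linarith

/-- if the core functional is zero, the function is the reference function on the core -/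
theorem QU_zero {f : ℝ × ℝ → ℝ} (hf : Continuous f) (h : QU f ≤ 0) {X Y : ℝ} (hX : |X| ≤ cc)
    (hY : 3 * Y ^ 2 ≤ 1 + X ^ 2) : f (X, Y) = √3 / 2 * √(1 + X ^ 2) - cc / 2 := by
  have c01 : Continuous fun z : ℝ × ℝ => ((z.1, -z.2) : ℝ × ℝ) := by fun_prop
  have c10 : Continuous fun z : ℝ × ℝ => ((-z.1, z.2) : ℝ × ℝ) := by fun_prop
  have c11 : Continuous fun z : ℝ × ℝ => ((-z.1, -z.2) : ℝ × ℝ) := by fun_prop
  have hc := cc_pos
  have hcc := cc_sq
  have h3 : (0 : ℝ) < √3 := by positivity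
  unfold QU at h
  have n1 := RI_nonneg (f := fun x y => uf f x y ^ 2 + uf (fun z => f (z.1, -z.2)) x y ^ 2)
    (fun x y => by positivity)
  have n2 := RI_nonneg (f := fun x y => uf (fun z => f (-z.1, z.2)) x y ^ 2 +
    uf (fun z => f (-z.1, -z.2)) x y ^ 2) (fun x y => by positivity)
  -- the chart point
  obtain ⟨x, hx⟩ : ∃ x, x = |X| / cc := ⟨_, rfl⟩
  have hx0 : 0 ≤ x := by rw [hx]; positivity
  have hx1 : x ≤ 1 := by rw [hx, div_le_one hc]; exact hX
  have hcx : cc * x = |X| := by rw [hx]; field_simp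
  have hw : wf x = √(1 + X ^ 2) := by
    unfold wf mf
    congr 1
    have : (cc * x) ^ 2 = X ^ 2 := by rw [hcx, sq_abs]
    rw [mul_pow, hcc] at this
    linarith
  have hwp := wf_pos x
  obtain ⟨y, hy⟩ : ∃ y, y = √3 * |Y| / wf x := ⟨_, rfl⟩
  have hy0 : 0 ≤ y := by rw [hy]; positivity
  have hy1 : y ≤ 1 := by
    rw [hy, div_le_one hwp, hw]
    apply Real.le_sqrt_of_sq_le
    rw [mul_pow, sq_abs, Real.sq_sqrt (by norm_num)]
    exact hY
  have hwy : wf x * y / √3 = |Y| := by rw [hy]; field_simp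
  have val : ∀ g : ℝ × ℝ → ℝ, uf g x y = 0 → g (|X|, |Y|) = √3 / 2 * √(1 + X ^ 2) - cc / 2 := by
    intro g hg
    unfold uf at hg
    rw [hcx, hwy] at hg
    have e : s3 = √3 / 2 := rfl
    rw [e] at hg
    have : (√3 / 2 - cc / (2 * wf x) - g (|X|, |Y|) / wf x) * wf x = 0 := by rw [hg, zero_mul]
    have e2 : (√3 / 2 - cc / (2 * wf x) - g (|X|, |Y|) / wf x) * wf x =
        √3 / 2 * wf x - cc / 2 - g (|X|, |Y|) := by
      field_simp
    rw [e2, hw] at this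
    linarith
  have z1 := RI_zero (f := fun x y => uf f x y ^ 2 + uf (fun z => f (z.1, -z.2)) x y ^ 2)
    (cont_uf2 hf (hf.comp c01)) (fun x y => by positivity) (by linarith) hx0 hx1 hy0 hy1
  have z2 := RI_zero (f := fun x y => uf (fun z => f (-z.1, z.2)) x y ^ 2 +
    uf (fun z => f (-z.1, -z.2)) x y ^ 2) (cont_uf2 (hf.comp c10) (hf.comp c11)) (fun x y => by positivity)
    (by linarith) hx0 hx1 hy0 hy1
  have q00 : uf f x y = 0 := by
    have := sq_nonneg (uf (fun z => f (z.1, -z.2)) x y)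
    have h2 := sq_nonneg (uf f x y)
    exact pow_eq_zero_iff (two_ne_zero) |>.1 (le_antisymm (by linarith) h2)
  have q01 : uf (fun z => f (z.1, -z.2)) x y = 0 := by
    have := sq_nonneg (uf f x y)
    have h2 := sq_nonneg (uf (fun z => f (z.1, -z.2)) x y)
    exact pow_eq_zero_iff (two_ne_zero) |>.1 (le_antisymm (by linarith) h2)
  have q10 : uf (fun z => f (-z.1, z.2)) x y = 0 := by
    have := sq_nonneg (uf (fun z => f (-z.1, -z.2)) x y)
    have h2 := sq_nonneg (uf (fun z => f (-z.1, z.2)) x y)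
    exact pow_eq_zero_iff (two_ne_zero) |>.1 (le_antisymm (by
      have : uf (fun z => f (-z.1, z.2)) x y ^ 2 + uf (fun z => f (-z.1, -z.2)) x y ^ 2 = 0 := z2
      linarith) h2)
  have q11 : uf (fun z => f (-z.1, -z.2)) x y = 0 := by
    have := sq_nonneg (uf (fun z => f (-z.1, z.2)) x y)
    have h2 := sq_nonneg (uf (fun z => f (-z.1, -z.2)) x y)
    exact pow_eq_zero_iff (two_ne_zero) |>.1 (le_antisymm (by
      have : uf (fun z => f (-z.1, z.2)) x y ^ 2 + uf (fun z => f (-z.1, -z.2)) x y ^ 2 = 0 := z2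
      linarith) h2)
  rcases abs_cases X with ⟨eX, _⟩ | ⟨eX, _⟩ <;> rcases abs_cases Y with ⟨eY, _⟩ | ⟨eY, _⟩
  · have := val _ q00
    rwa [eX, eY] at this
  · have := val _ q01
    simp only at this
    rwa [eX, eY, neg_neg] at this
  · have := val _ q10
    simp only at this
    rwa [eX, eY, neg_neg] at this
  · have := val _ q11
    simp only at this
    rwa [eX, eY, neg_neg, neg_neg] at this

end Pool.Agent.MEQ
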