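import Pool.Agent.MCB.ASM
import Pool.Agent.MEQ.Defs
/-!
MEQ: cells with slack. The strict versions of `hc_sym` and `hc_asym` of `MCB.ASM`.
-/
set_option autoImplicit false

open MeasureTheory Set Metric Pool.Agent.MEIS Pool.Agent.MSQ Pool.Agent.MGE Pool.Agent.MGF Pool.Agent.MTR Pool.Agent.MCA
  Pool.Agent.MCB

namespace Pool.Agent.MEQ

/-- the budget with slack -/
theorem tot_slack {Ds ps Db pb : ℕ} {ks sl kd : Int} (h : bOK Ds ps Db pb (ks + sl) kd = true) :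
    3 * (24000 * (ps : ℝ) / (√2 * Ds)) + 3 * ((ks : ℝ) / kd) + 3 * sl / kd ≤ 24000 * (pb : ℝ) / (√2 * Db) := by
  have h1 := bOK_tot h
  push_cast at h1
  have e : 3 * (((ks : ℝ) + sl) / kd) = 3 * ((ks : ℝ) / kd) + 3 * sl / kd := by ring
  rw [e] at h1
  linarith

/-- the budget without slack -/
theorem tot_le {Ds ps Db pb : ℕ} {ks sl kd : Int} (hs : 0 ≤ sl) (h : bOK Ds ps Db pb (ks + sl) kd = true) :
    3 * (24000 * (ps : ℝ) / (√2 * Ds)) + 3 * ((ks : ℝ) / kd) ≤ 24000 * (pb : ℝ) / (√2 * Db) := by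
  have h1 := tot_slack h
  have h2 : (0 : ℝ) ≤ sl := by exact_mod_cast hs
  have h3 : (0 : ℝ) ≤ kd := by
    unfold bOK at h
    simp only [Bool.and_eq_true, decide_eq_true_eq] at h
    exact_mod_cast h.1.1.2.le
  have h4 : (0 : ℝ) ≤ 3 * sl / kd := by positivity
  linarith

/-- symmetric cell -/
theorem hcS_sym (c : Sqd) (hc : c.Ok) (bb ks sl kd : Int) (hq : c.IsC fun _ => qB bb) (hk : kOK c ks kd = true)
    (h12 : c.F1 = c.F2) (Fb Fs : FD) (e1 : FFd Fb = FL c.DF c.F2) (e2 : FFd Fs = FL c.DF c.F2)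
    (hev : (evenL Fs.f0 && evenL Fs.f1 && oddL Fs.f2 && evenL Fs.f3 && evenL Fs.f4 && evenL Fs.f5 && oddL Fs.f6) = true)
    (Ds ps Db pb ln ld bn bd : ℕ) (hs : TriC (FFd Fs) 0 1 bn bd (24000 * payOf true ps / (√2 * Ds)))
    (hb : TriC (FFd Fb) ln ld bn bd (24000 * payOf false pb / (√2 * Db)))
    (hsl : 0 ≤ sl) (hbk : bOK Ds ps Db pb (ks + sl) kd = true) (hr : (0 < ld ∧ 0 < bd) ∧ bb * bd = 100000 * (bn : Int))
    (m : ℝ) (m1 : (ln : ℝ) / ld ≤ m) (m2 : m ≤ (bn : ℝ) / bd) : HasCellS (3 * sl / kd) m := by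
  obtain ⟨⟨ld0, bd0⟩, hbb⟩ := hr
  have q1 : (0 : ℝ) < ld := by exact_mod_cast ld0
  have q2 : (0 : ℝ) < bd := by exact_mod_cast bd0
  have q3 : (bb : ℝ) / 100000 = bn / bd := by
    rw [div_eq_div_iff (by norm_num) q2.ne']
    have : (bb : ℝ) * bd = 100000 * bn := by exact_mod_cast hbb
    linarith
  have hsym : Fsym (FL c.DF c.F2) := by
    rw [← e2]
    exact FF_sym _ _ _ _ _ _ _ _ hev
  have hcont : Continuous fun z : ℝ × ℝ × ℝ × ℝ => FL c.DF c.F2 z.1 z.2.1 z.2.2.1 z.2.2.2 := FF_cont _ _ _ _ _ _ _ _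
  refine Or.inl ⟨FL c.DF c.F2, 24000 * (ps : ℝ) / (√2 * Ds), 24000 * (pb : ℝ) / (√2 * Db), (ks : ℝ) / kd,
    (ln : ℝ) / ld, (bn : ℝ) / bd, ⟨hsym, hcont, ?_, ?_, ?_, tot_le hsl hbk⟩, by positivity, m1, m2, tot_slack hbk⟩
  · intro T b hT hb1
    have h0 : 0 ≤ b := by
      have := hT.nonneg (pt 1 1 1) (by simp [pt]) (by simp [pt]) (by simp [pt])
      rwa [hT.cen] at this
    have := hs T b hT ⟨by simpa [rgOf] using h0, by
      have := mul_le_mul_of_nonneg_left hb1 q2.le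
      rw [mul_div_cancel₀ _ q2.ne'] at this
      simpa [rgOf] using this⟩
    rw [e2] at this
    have e : 24000 * ((payOf true ps : ℤ) : ℝ) / (√2 * Ds) = -(24000 * (ps : ℝ) / (√2 * Ds)) := by
      simp [payOf]
      ring
    rw [e] at this
    linarith
  · intro T b hT hb0 hb1
    have := hb T b hT ⟨by
      have := mul_le_mul_of_nonneg_left hb0 q1.le
      rw [mul_div_cancel₀ _ q1.ne'] at this
      simpa [rgOf] using this, by
      have := mul_le_mul_of_nonneg_left hb1 q2.le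
      rw [mul_div_cancel₀ _ q2.ne'] at this
      simpa [rgOf] using this⟩
    rw [e1] at this
    have e : 24000 * ((payOf false pb : ℤ) : ℝ) / (√2 * Db) = 24000 * (pb : ℝ) / (√2 * Db) := by
      simp [payOf]
    rw [e] at this
    exact this
  · intro J hJ _
    rw [← q3] at hJ
    exact cb_sym c hc bb ks kd hq hk h12 hsym hcont J hJ

/-- asymmetric cell -/
theorem hcS_asym (c : Sqd) (hc : c.Ok) (be bb bs ks sl kd : Int) (hq : c.IsC (qA be bb bs)) (hk : kOK c ks kd = true)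
    (Fb Fs : FD) (e1 : FFd Fb = FL c.DF c.F1) (e2 : FFd Fs = FL c.DF c.F2)
    (hev1 : (evenL Fb.f0 && evenL Fb.f1 && oddL Fb.f2 && evenL Fb.f3 && evenL Fb.f4 && evenL Fb.f5 && oddL Fb.f6) = true)
    (hev2 : (evenL Fs.f0 && evenL Fs.f1 && oddL Fs.f2 && evenL Fs.f3 && evenL Fs.f4 && evenL Fs.f5 && oddL Fs.f6) = true)
    (Ds ps Db pb ln ld bn bd sn sd : ℕ) (hs : TriC (FFd Fs) 0 1 sn sd (24000 * payOf true ps / (√2 * Ds)))
    (hb : TriC (FFd Fb) ln ld bn bd (24000 * payOf false pb / (√2 * Db)))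
    (hsl : 0 ≤ sl) (hbk : bOK Ds ps Db pb (ks + sl) kd = true)
    (hr : (0 < ld ∧ 0 < bd ∧ 0 < sd) ∧ be * ld = 100000 * (ln : Int) ∧ bb * bd = 100000 * (bn : Int) ∧
      bs * sd = 100000 * (sn : Int))
    (m : ℝ) (m1 : (ln : ℝ) / ld ≤ m) (m2 : m ≤ (bn : ℝ) / bd) (m3 : m ≤ (sn : ℝ) / sd ∨ 143 / 1000 - m ≤ (sn : ℝ) / sd) :
    HasCellS (3 * sl / kd) m := by
  obtain ⟨⟨ld0, bd0, sd0⟩, hbe, hbb, hbs⟩ := hr
  have q1 : (0 : ℝ) < ld := by exact_mod_cast ld0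
  have q2 : (0 : ℝ) < bd := by exact_mod_cast bd0
  have q4 : (0 : ℝ) < sd := by exact_mod_cast sd0
  have q3 : (bb : ℝ) / 100000 = bn / bd := by
    rw [div_eq_div_iff (by norm_num) q2.ne']
    have : (bb : ℝ) * bd = 100000 * bn := by exact_mod_cast hbb
    linarith
  have q5 : (be : ℝ) / 100000 = ln / ld := by
    rw [div_eq_div_iff (by norm_num) q1.ne']
    have : (be : ℝ) * ld = 100000 * ln := by exact_mod_cast hbe
    linarith
  have q6 : (bs : ℝ) / 100000 = sn / sd := by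
    rw [div_eq_div_iff (by norm_num) q4.ne']
    have : (bs : ℝ) * sd = 100000 * sn := by exact_mod_cast hbs
    linarith
  have hsym1 : Fsym (FL c.DF c.F1) := by
    rw [← e1]
    exact FF_sym _ _ _ _ _ _ _ _ hev1
  have hsym2 : Fsym (FL c.DF c.F2) := by
    rw [← e2]
    exact FF_sym _ _ _ _ _ _ _ _ hev2
  have hcont1 : Continuous fun z : ℝ × ℝ × ℝ × ℝ => FL c.DF c.F1 z.1 z.2.1 z.2.2.1 z.2.2.2 := FF_cont _ _ _ _ _ _ _ _
  have hcont2 : Continuous fun z : ℝ × ℝ × ℝ × ℝ => FL c.DF c.F2 z.1 z.2.1 z.2.2.1 z.2.2.2 := FF_cont _ _ _ _ _ _ _ _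
  refine Or.inr ⟨FL c.DF c.F1, FL c.DF c.F2, 24000 * (ps : ℝ) / (√2 * Ds), 24000 * (pb : ℝ) / (√2 * Db), (ks : ℝ) / kd,
    (ln : ℝ) / ld, (bn : ℝ) / bd, (sn : ℝ) / sd, ⟨hsym1, hsym2, hcont1, hcont2, ?_, ?_, ?_, tot_le hsl hbk⟩, m1, m2, m3, tot_slack hbk⟩
  · intro T b hT hb1
    have h0 : 0 ≤ b := by
      have := hT.nonneg (pt 1 1 1) (by simp [pt]) (by simp [pt]) (by simp [pt])
      rwa [hT.cen] at this
    have := hs T b hT ⟨by simpa [rgOf] using h0, by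
      have := mul_le_mul_of_nonneg_left hb1 q4.le
      rw [mul_div_cancel₀ _ q4.ne'] at this
      simpa [rgOf] using this⟩
    rw [e2] at this
    have e : 24000 * ((payOf true ps : ℤ) : ℝ) / (√2 * Ds) = -(24000 * (ps : ℝ) / (√2 * Ds)) := by
      simp [payOf]
      ring
    rw [e] at this
    linarith
  · intro T b hT hb0 hb1
    have := hb T b hT ⟨by
      have := mul_le_mul_of_nonneg_left hb0 q1.le
      rw [mul_div_cancel₀ _ q1.ne'] at this
      simpa [rgOf] using this, by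
      have := mul_le_mul_of_nonneg_left hb1 q2.le
      rw [mul_div_cancel₀ _ q2.ne'] at this
      simpa [rgOf] using this⟩
    rw [e1] at this
    have e : 24000 * ((payOf false pb : ℤ) : ℝ) / (√2 * Db) = 24000 * (pb : ℝ) / (√2 * Db) := by
      simp [payOf]
    rw [e] at this
    exact this
  · intro J b1 b2 b3 b4 hJ hL h1 h1' g2 g3 g4 k2 k3 k4 hsum
    rw [← q3] at h1'
    rw [← q5] at h1
    rw [← q6] at k2 k3 k4
    exact cb_asym c hc be bb bs ks kd hq hk hsym1 hsym2 hcont1 hcont2 J b1 b2 b3 b4 hJ hL h1 h1' g2 g3 g4 k2 k3 k4 hsum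

end Pool.Agent.MEQ
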