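import Pool.Agent.MEQ.Defs
import Pool.Agent.MEQ.Geo
import Pool.Agent.MGE.VV
/-!
Sq. Directions of a square are covered by the chords of the vertices and of one arc.
-/
set_option autoImplicit false

open MeasureTheory Set Metric Pool.Agent.MEIS Pool.Agent.MSQ Pool.Agent.MGE Pool.Agent.MGF

namespace Pool.Agent.MEQ

theorem e_ext {x y : E} (h0 : x 0 = y 0) (h1 : x 1 = y 1) (h2 : x 2 = y 2) : x = y := by
  ext i
  fin_cases i
  · exact h0
  · exact h1
  · exact h2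

theorem vv_0 : vv 0 = pt (1 / 2) 0 (cc / 2) := rfl
theorem vv_1 : vv 1 = pt (-1 / 2) 0 (cc / 2) := rfl
theorem vv_2 : vv 2 = pt 0 (1 / 2) (-cc / 2) := rfl
theorem vv_3 : vv 3 = pt 0 (-1 / 2) (-cc / 2) := rfl

theorem sub_pt (a b c d e f : ℝ) : pt a b c - pt d e f = pt (a - d) (b - e) (c - f) := by
  apply e_ext <;> rfl

theorem comb_pt (a b c : E) (t u v : ℝ) (i : Fin 3) :
    (t • a + u • b + v • c) i = t * a i + u * b i + v * c i := rfl

/-- the point of the arc `γ_01` with normal direction `(X, 0, 1)` in the plane of the arc -/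
noncomputable def pA (X : ℝ) : E := pt (√3 / 2 * X / √(1 + X ^ 2)) 0 (√3 / 2 / √(1 + X ^ 2) - cc / 2)

theorem sX_pos (X : ℝ) : 0 < √(1 + X ^ 2) := Real.sqrt_pos.2 (by positivity)
theorem sX_sq (X : ℝ) : √(1 + X ^ 2) ^ 2 = 1 + X ^ 2 := Real.sq_sqrt (by positivity)
theorem s3_sq : (√3 : ℝ) ^ 2 = 3 := Real.sq_sqrt (by norm_num)

private theorem sq_alg {X s r : ℝ} (hs : s ≠ 0) (h : s ^ 2 = 1 + X ^ 2) (hr : r ^ 2 = 3) :
    (r / 2 * X / s) ^ 2 + (r / 2 / s) ^ 2 = 3 / 4 := by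
  field_simp
  rw [hr, h]
  ring

theorem pA_two (X : ℝ) : ‖pA X - vv 2‖ = 1 := by
  rw [pA, vv_2, sub_pt, norm_pt]
  have h := sq_alg (sX_pos X).ne' (sX_sq X) s3_sq
  rw [Real.sqrt_eq_one]
  have e : √3 / 2 / √(1 + X ^ 2) - cc / 2 - -cc / 2 = √3 / 2 / √(1 + X ^ 2) := by ring
  rw [e, sub_zero]
  linarith

theorem pA_three (X : ℝ) : ‖pA X - vv 3‖ = 1 := by
  rw [pA, vv_3, sub_pt, norm_pt]
  have h := sq_alg (sX_pos X).ne' (sX_sq X) s3_sq
  rw [Real.sqrt_eq_one]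
  have e : √3 / 2 / √(1 + X ^ 2) - cc / 2 - -cc / 2 = √3 / 2 / √(1 + X ^ 2) := by ring
  rw [e, sub_zero]
  linarith

private theorem sq_key {X s r t : ℝ} (h : s ^ 2 = 1 + X ^ 2) (hr : r ^ 2 = 3) (hr0 : 0 < r)
    (ht : t ≤ cc) (htX : t ^ 2 = X ^ 2) : s ≤ 2 * r * (cc - t / 2) := by
  have hc := cc_sq
  have hp := cc_pos
  have h1 : s ^ 2 ≤ (2 * r * (cc - t / 2)) ^ 2 := by
    have e : (2 * r * (cc - t / 2)) ^ 2 = 12 * (cc - t / 2) ^ 2 := by
      rw [mul_pow, mul_pow, hr]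
      ring
    rw [e, h, ← htX]
    nlinarith [mul_nonneg (sub_nonneg.2 ht) (show 0 ≤ 5 * cc - t by linarith)]
  have h2 : 0 ≤ 2 * r * (cc - t / 2) := by
    apply mul_nonneg (by positivity)
    linarith
  exact le_of_sq_le_sq h1 h2

theorem pA_zero {X : ℝ} (hX : |X| ≤ cc) : ‖pA X - vv 0‖ ≤ 1 := by
  rw [pA, vv_0, sub_pt, norm_pt]
  have h := sq_alg (sX_pos X).ne' (sX_sq X) s3_sq
  have hs := sX_pos X
  have hc := cc_sq
  obtain ⟨x1, x2⟩ := abs_le.1 hX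
  have k := sq_key (t := -X) (sX_sq X) s3_sq (by positivity) (by linarith) (by ring)
  apply Real.sqrt_le_one.2
  have e1 : √3 * (cc + X / 2) / √(1 + X ^ 2) ≥ 1 / 2 := by
    rw [ge_iff_le, le_div_iff₀ hs]
    linarith
  have e2 : (√3 / 2 * X / √(1 + X ^ 2) - 1 / 2) ^ 2 + (0 - 0) ^ 2 +
      (√3 / 2 / √(1 + X ^ 2) - cc / 2 - cc / 2) ^ 2 =
      ((√3 / 2 * X / √(1 + X ^ 2)) ^ 2 + (√3 / 2 / √(1 + X ^ 2)) ^ 2) + 1 / 4 + cc ^ 2 -
        √3 * (cc + X / 2) / √(1 + X ^ 2) := by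
    field_simp
    ring
  rw [e2, h, hc]
  linarith

theorem pA_one {X : ℝ} (hX : |X| ≤ cc) : ‖pA X - vv 1‖ ≤ 1 := by
  rw [pA, vv_1, sub_pt, norm_pt]
  have h := sq_alg (sX_pos X).ne' (sX_sq X) s3_sq
  have hs := sX_pos X
  have hc := cc_sq
  obtain ⟨x1, x2⟩ := abs_le.1 hX
  have k := sq_key (t := X) (sX_sq X) s3_sq (by positivity) (by linarith) (by ring)
  apply Real.sqrt_le_one.2
  have e1 : √3 * (cc - X / 2) / √(1 + X ^ 2) ≥ 1 / 2 := by
    rw [ge_iff_le, le_div_iff₀ hs]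
    linarith
  have e2 : (√3 / 2 * X / √(1 + X ^ 2) - -1 / 2) ^ 2 + (0 - 0) ^ 2 +
      (√3 / 2 / √(1 + X ^ 2) - cc / 2 - cc / 2) ^ 2 =
      ((√3 / 2 * X / √(1 + X ^ 2)) ^ 2 + (√3 / 2 / √(1 + X ^ 2)) ^ 2) + 1 / 4 + cc ^ 2 -
        √3 * (cc - X / 2) / √(1 + X ^ 2) := by
    field_simp
    ring
  rw [e2, h, hc]
  linarith

theorem pA_mem {X : ℝ} (hX : |X| ≤ cc) : pA X ∈ gam vv 0 1 := by
  refine ⟨fun i => ?_, fun k h0 h1 => ?_⟩
  · fin_cases i
    · exact pA_zero hX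
    · exact pA_one hX
    · exact (pA_two X).le
    · exact (pA_three X).le
  · fin_cases k
    · exact absurd rfl h0
    · exact absurd rfl h1
    · exact pA_two X
    · exact pA_three X

private theorem sq_core {D : Set E} (hv : ∀ i, vv i ∈ D) (ha : gam vv 0 1 ⊆ D) {X Y : ℝ}
    (hX : |X| ≤ cc) (h : 3 * Y ^ 2 ≤ 1 + X ^ 2) : TA D (P (X, Y)) := by
  have hs := sX_pos X
  have hs2 := sX_sq X
  have h3 : (0 : ℝ) < √3 := by positivity
  have h33 := s3_sq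
  have hY : |Y| ≤ √(1 + X ^ 2) / √3 := by
    rw [le_div_iff₀ h3]
    apply Real.le_sqrt_of_sq_le
    rw [mul_pow, sq_abs, h33]
    linarith
  obtain ⟨y1, y2⟩ := abs_le.1 hY
  refine ⟨pA X, ha (pA_mem hX), vv 2, hv 2, vv 3, hv 3, vv 3, hv 3, √(1 + X ^ 2) / √3 - Y,
    √(1 + X ^ 2) / √3 + Y, 0, by linarith, by linarith, le_rfl, pA_two X, pA_three X, pA_three X, ?_⟩
  rw [pA, vv_2, vv_3, sub_pt, sub_pt]
  apply e_ext
  · rw [comb_pt]
    simp only [pt0, MGE.P]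
    field_simp
    ring
  · rw [comb_pt]
    simp only [pt1, MGE.P]
    ring
  · rw [comb_pt]
    simp only [pt2, MGE.P]
    field_simp
    ring

private theorem sq_sliv {D : Set E} (hv : ∀ i, vv i ∈ D) (ha : gam vv 0 1 ⊆ D) {X Y : ℝ}
    (hY : |Y| ≤ cc) (h : 1 + X ^ 2 ≤ 3 * Y ^ 2) : TA D (-P (X, Y)) := by
  have h3 : (0 : ℝ) < √3 := by positivity
  have h33 := s3_sq
  have hc := cc_sq
  have hY2 : Y ^ 2 ≤ 1 / 2 := by
    rw [← sq_abs, ← hc]
    exact pow_le_pow_left₀ (abs_nonneg Y) hY 2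
  have hw : 0 ≤ 3 * Y ^ 2 - 1 := by nlinarith [sq_nonneg X]
  obtain ⟨W, hW⟩ : ∃ W, W = √(3 * Y ^ 2 - 1) := ⟨_, rfl⟩
  have hW0 : 0 ≤ W := by rw [hW]; exact Real.sqrt_nonneg _
  have hW2 : W ^ 2 = 3 * Y ^ 2 - 1 := by rw [hW]; exact Real.sq_sqrt hw
  have hXW : |X| ≤ W := by
    rw [hW]
    apply Real.le_sqrt_of_sq_le
    rw [sq_abs]
    linarith
  have hWc : W ≤ cc := by
    apply le_of_sq_le_sq _ cc_pos.le
    rw [hW2, hc]
    linarith
  have hYn : Y ≠ 0 := by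
    rintro rfl
    norm_num at hw
  have hsW : √(1 + W ^ 2) = √3 * |Y| := by
    rw [hW2, show 1 + (3 * Y ^ 2 - 1) = 3 * Y ^ 2 by ring, Real.sqrt_mul (by norm_num), Real.sqrt_sq_eq_abs]
  have hsW' : √(1 + (-W) ^ 2) = √3 * |Y| := by
    rw [neg_sq, hsW]
  have hYp : 0 < |Y| := abs_pos.2 hYn
  obtain ⟨x1, x2⟩ := abs_le.1 hXW
  have hm1 : pA W ∈ D := ha (pA_mem (by rw [abs_of_nonneg hW0]; exact hWc))
  have hm2 : pA (-W) ∈ D := ha (pA_mem (by rw [abs_neg, abs_of_nonneg hW0]; exact hWc))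
  obtain ⟨α, β, hα, hβ, hab, hX⟩ : ∃ α β : ℝ, 0 ≤ α ∧ 0 ≤ β ∧ α + β = 1 ∧ (α - β) * W = X := by
    rcases hW0.eq_or_lt with h0 | h0
    · refine ⟨1 / 2, 1 / 2, by norm_num, by norm_num, by norm_num, ?_⟩
      rw [← h0] at x1 x2
      linarith
    · refine ⟨(1 + X / W) / 2, (1 - X / W) / 2, ?_, ?_, by ring, ?_⟩
      · have : -1 ≤ X / W := by
          rw [le_div_iff₀ h0]
          linarith
        linarith
      · have : X / W ≤ 1 := by
          rw [div_le_iff₀ h0]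
          linarith
        linarith
      · field_simp
        ring
  rcases lt_or_gt_of_ne hYn with hneg | hpos
  · have hab' : |Y| = -Y := abs_of_neg hneg
    rw [hab'] at hsW hsW' hYp
    refine ⟨vv 2, hv 2, pA W, hm1, pA (-W), hm2, pA W, hm1, 2 * (-Y) * α, 2 * (-Y) * β, 0, ?_, ?_, le_rfl,
      by rw [norm_sub_rev]; exact pA_two W, by rw [norm_sub_rev]; exact pA_two (-W),
      by rw [norm_sub_rev]; exact pA_two W, ?_⟩
    · exact mul_nonneg (by linarith) hα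
    · exact mul_nonneg (by linarith) hβ
    · rw [pA, pA, hsW, hsW', vv_2, sub_pt, sub_pt, MGE.P, neg_pt]
      have hYY : (-Y) ≠ 0 := hYp.ne'
      apply e_ext
      · rw [comb_pt]
        simp only [pt0]
        rw [← hX]
        field_simp
        ring
      · rw [comb_pt]
        simp only [pt1]
        linear_combination Y * hab
      · rw [comb_pt]
        simp only [pt2]
        have e : √3 / 2 / (√3 * -Y) = 1 / (2 * -Y) := by
          field_simp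
        rw [e]
        have e2 : 2 * -Y * α * (-cc / 2 - (1 / (2 * -Y) - cc / 2)) + 2 * -Y * β *
            (-cc / 2 - (1 / (2 * -Y) - cc / 2)) = -(α + β) * (2 * -Y * (1 / (2 * -Y))) := by ring
        have e3 : 2 * -Y * (1 / (2 * -Y)) = 1 := by
          field_simp
        rw [e3, hab] at e2
        linarith
  · have hab' : |Y| = Y := abs_of_pos hpos
    rw [hab'] at hsW hsW' hYp
    refine ⟨vv 3, hv 3, pA W, hm1, pA (-W), hm2, pA W, hm1, 2 * Y * α, 2 * Y * β, 0, ?_, ?_, le_rfl,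
      by rw [norm_sub_rev]; exact pA_three W, by rw [norm_sub_rev]; exact pA_three (-W),
      by rw [norm_sub_rev]; exact pA_three W, ?_⟩
    · exact mul_nonneg (by linarith) hα
    · exact mul_nonneg (by linarith) hβ
    · rw [pA, pA, hsW, hsW', vv_3, sub_pt, sub_pt, MGE.P, neg_pt]
      apply e_ext
      · rw [comb_pt]
        simp only [pt0]
        rw [← hX]
        field_simp
        ring
      · rw [comb_pt]
        simp only [pt1]
        linear_combination Y * hab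
      · rw [comb_pt]
        simp only [pt2]
        have e : √3 / 2 / (√3 * Y) = 1 / (2 * Y) := by
          field_simp
        rw [e]
        have e2 : 2 * Y * α * (-cc / 2 - (1 / (2 * Y) - cc / 2)) + 2 * Y * β *
            (-cc / 2 - (1 / (2 * Y) - cc / 2)) = -(α + β) * (2 * Y * (1 / (2 * Y))) := by ring
        have e3 : 2 * Y * (1 / (2 * Y)) = 1 := by
          field_simp
        rw [e3, hab] at e2
        linarith

/-- every direction of the square is covered, up to sign -/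
theorem sq_cov {D : Set E} (hv : ∀ i, vv i ∈ D) (ha : gam vv 0 1 ⊆ D) {X Y : ℝ} (hX : |X| ≤ cc)
    (hY : |Y| ≤ cc) : TA D (P (X, Y)) ∨ TA D (-P (X, Y)) := by
  rcases le_total (3 * Y ^ 2) (1 + X ^ 2) with h | h
  · exact Or.inl (sq_core hv ha hX h)
  · exact Or.inr (sq_sliv hv ha hY h)

end Pool.Agent.MEQ
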